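import Pool.Agent.BLA.AnaTo

/-!
# Closed names give analytic names

`R = {(a, b) | {n | a n = true} is infinite ∧ N {n | a n = true} {n | b n = true}}`. By
`IsName.closed`, `R = {a infinite} ∩ K`, where `K` is the set of `(a, b)` such that for every `k`
there are `y', A'` with `N y' A'` which agree with the sets of `a`, `b` below `k`; `K` is closed, and
`{a infinite}` is measurable (a countable intersection of countable unions of clopen sets), so `R`
is measurable and hence analytic (`MeasurableSet.analyticSet`). Members of `p` are infinite.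
-/

namespace Pool.Agent.BLA

open Filter Set

theorem setOf_chi (A : Set ℕ) : {n | chi A n = true} = A := by
  ext n
  simp [chi]

/-- the infinite sets form a measurable set -/
theorem measurableSet_inf :
    MeasurableSet {q : (ℕ → Bool) × (ℕ → Bool) | {n | q.1 n = true}.Infinite} := by
  have e : {q : (ℕ → Bool) × (ℕ → Bool) | {n | q.1 n = true}.Infinite} =
      ⋂ m : ℕ, ⋃ n : ℕ, {q | m < n ∧ q.1 n = true} := by
    ext q
    simp only [mem_ofPred_eq, mem_iInter, mem_iUnion]
    constructor
    · intro h m
      obtain ⟨n, hn, hmn⟩ := h.exists_gt m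
      exact ⟨n, hmn, hn⟩
    · intro h
      refine Set.infinite_of_forall_exists_gt fun m => ?_
      obtain ⟨n, hmn, hn⟩ := h m
      exact ⟨n, hn, hmn⟩
  rw [e]
  refine MeasurableSet.iInter fun m => MeasurableSet.iUnion fun n => ?_
  by_cases h : m < n
  · have e2 : {q : (ℕ → Bool) × (ℕ → Bool) | m < n ∧ q.1 n = true} =
        (fun q : (ℕ → Bool) × (ℕ → Bool) => q.1 n) ⁻¹' {true} := by
      ext q
      simp [h]
    rw [e2]
    exact ((measurable_pi_apply n).comp measurable_fst) (MeasurableSet.singleton true)
  · have e2 : {q : (ℕ → Bool) × (ℕ → Bool) | m < n ∧ q.1 n = true} = ∅ := by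
      ext q
      simp [h]
    rw [e2]
    exact MeasurableSet.empty

/-- conditions on the first `k` coordinates are measurable -/
theorem measurableSet_first (N : Set ℕ → Set ℕ → Prop) (k : ℕ) :
    MeasurableSet {q : (ℕ → Bool) × (ℕ → Bool) | ∃ y' A', Agree k y' {n | q.1 n = true} ∧
      Agree k A' {n | q.2 n = true} ∧ N y' A'} := by
  have e : {q : (ℕ → Bool) × (ℕ → Bool) | ∃ y' A', Agree k y' {n | q.1 n = true} ∧
      Agree k A' {n | q.2 n = true} ∧ N y' A'} =
      (fun q : (ℕ → Bool) × (ℕ → Bool) => ((fun i : Fin k => q.1 i), (fun i : Fin k => q.2 i))) ⁻¹'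
        {r : (Fin k → Bool) × (Fin k → Bool) | ∃ y' A' : Set ℕ, (∀ i : Fin k, ((i : ℕ) ∈ y' ↔ r.1 i = true)) ∧
          (∀ i : Fin k, ((i : ℕ) ∈ A' ↔ r.2 i = true)) ∧ N y' A'} := by
    ext q
    simp only [mem_ofPred_eq, mem_preimage, Agree]
    constructor
    · rintro ⟨y', A', h1, h2, h3⟩
      exact ⟨y', A', fun i => h1 i i.2, fun i => h2 i i.2, h3⟩
    · rintro ⟨y', A', h1, h2, h3⟩
      exact ⟨y', A', fun i hi => h1 ⟨i, hi⟩, fun i hi => h2 ⟨i, hi⟩, h3⟩
  rw [e]
  have hm : Measurable (fun q : (ℕ → Bool) × (ℕ → Bool) =>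
      ((fun i : Fin k => q.1 i), (fun i : Fin k => q.2 i))) := by
    refine Measurable.prodMk ?_ ?_
    · exact measurable_pi_lambda _ fun i => (measurable_pi_apply (i : ℕ)).comp measurable_fst
    · exact measurable_pi_lambda _ fun i => (measurable_pi_apply (i : ℕ)).comp measurable_snd
  exact hm (Set.toFinite _).measurableSet

theorem Named.analyticOver {p U : Ultrafilter ℕ} (hp : Selective p) (h : Named p U) :
    AnalyticOver p U := by
  obtain ⟨N, hN, hU⟩ := h
  refine ⟨{q | {n | q.1 n = true}.Infinite} ∩ ⋂ k : ℕ, {q | ∃ y' A',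
    Agree k y' {n | q.1 n = true} ∧ Agree k A' {n | q.2 n = true} ∧ N y' A'}, ?_, ?_⟩
  · haveI : PolishSpace ((ℕ → Bool) × (ℕ → Bool)) :=
      { toSecondCountableTopology := inferInstance
        toIsCompletelyMetrizableSpace := inferInstance }
    refine MeasurableSet.analyticSet ?_
    exact measurableSet_inf.inter (MeasurableSet.iInter fun k => measurableSet_first N k)
  · intro A
    rw [hU]
    constructor
    · rintro ⟨y, hy, hyA⟩
      refine ⟨y, hy, ?_, ?_⟩
      · change {n | chi y n = true}.Infinite
        rw [setOf_chi]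
        exact hp.infinite hy
      · refine mem_iInter.2 fun k => ⟨y, A, ?_, ?_, hyA⟩
        · change Agree k y {n | chi y n = true}
          rw [setOf_chi]
          exact fun _ _ => Iff.rfl
        · change Agree k A {n | chi A n = true}
          rw [setOf_chi]
          exact fun _ _ => Iff.rfl
    · rintro ⟨x, hx, h1, h2⟩
      refine ⟨x, hx, hN.closed x A (hp.infinite hx) fun k => ?_⟩
      obtain ⟨y', A', g1, g2, g3⟩ := mem_iInter.1 h2 k
      refine ⟨y', A', ?_, ?_, g3⟩
      · have e := setOf_chi x
        change Agree k y' {n | chi x n = true} at g1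
        rwa [e] at g1
      · have e := setOf_chi A
        change Agree k A' {n | chi A n = true} at g2
        rwa [e] at g2

end Pool.Agent.BLA
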