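import Pool.Agent.BLA.Diag

/-!
# Compactness of closed names

Paper proof. Suppose the conclusion fails for every `n ∈ x`. For `n ∈ x` choose `A₁ n, A₂ n` and
`y₁ n, y₂ n ∈ p` above `cut x n` with `N (cut x n ∪ y₁ n) (A₁ n)`, `N (cut x n ∪ y₂ n) (A₂ n)` and
no `i ≤ n` in `A₁ n ∩ A₂ n`. Let `A₁ = {e | {n | e ∈ A₁ n} ∈ p}` (the limit along `p`) and the same
for `A₂`. For every `k`, for `p`-many `n ∈ x`, `k ≤ n` and `A₁ n` agrees with `A₁` below `k`, and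
`cut x n ∪ y₁ n` agrees with `x` below `n + 1 > k`; `x` is infinite, so `N x A₁` by
`IsName.closed`; so `A₁ ∈ U`, and `A₂ ∈ U`, so there is `e ∈ A₁ ∩ A₂`; for `p`-many `n`, `e ≤ n` and
`e ∈ A₁ n ∩ A₂ n`, a contradiction.
-/

namespace Pool.Agent.BLA

open Filter Set

/-- Limits along an ultrafilter agree with `p`-many terms below `k`. -/
theorem agree_lim (p : Ultrafilter ℕ) (A : ℕ → Set ℕ) (k : ℕ) :
    {n | Agree k (A n) {e | {m | e ∈ A m} ∈ p}} ∈ p := by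
  have h1 : ∀ i, ∀ᶠ n in (p : Filter ℕ), (i ∈ A n ↔ i ∈ {e | {m | e ∈ A m} ∈ p}) := by
    intro i
    by_cases h : {m | i ∈ A m} ∈ p
    · filter_upwards [Ultrafilter.mem_coe.2 h] with n hn
      exact ⟨fun _ => h, fun _ => hn⟩
    · have h' := Ultrafilter.compl_mem_iff_notMem.2 h
      filter_upwards [Ultrafilter.mem_coe.2 h'] with n hn
      exact ⟨fun h2 => absurd h2 hn, fun h2 => absurd h2 h⟩
  have h2 : ∀ᶠ n in (p : Filter ℕ), ∀ i ∈ Finset.range k,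
      (i ∈ A n ↔ i ∈ {e | {m | e ∈ A m} ∈ p}) :=
    (Filter.eventually_all_finset _).2 fun i _ => h1 i
  refine Ultrafilter.mem_coe.1 (Filter.mem_of_superset h2 ?_)
  intro n hn i hi
  exact hn i (Finset.mem_range.2 hi)

/-- The limit of names above longer and longer initial segments of `x`. -/
theorem compact_lim {p : Ultrafilter ℕ} (hp : Selective p) {N : Set ℕ → Set ℕ → Prop}
    (hN : IsName N) {x : Set ℕ} (hx : x ∈ p) (A y : ℕ → Set ℕ)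
    (h1 : ∀ n ∈ x, ∀ i ∈ cut x n, ∀ j ∈ y n, i < j)
    (h2 : ∀ n ∈ x, N (↑(cut x n) ∪ y n) (A n)) : N x {e | {m | e ∈ A m} ∈ p} := by
  apply hN.closed x _ (hp.infinite hx)
  intro k
  obtain ⟨n, ⟨hnx, hnk⟩, hna⟩ := Ultrafilter.nonempty_of_mem
    (Ultrafilter.mem_coe.1 (Filter.inter_mem (Filter.inter_mem (Ultrafilter.mem_coe.2 hx)
      (Ultrafilter.mem_coe.2 (hp.gt_mem k))) (Ultrafilter.mem_coe.2 (agree_lim p A k))))
  refine ⟨_, A n, ?_, hna, h2 n hnx⟩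
  intro i hi
  have hnk' : k < n := hnk
  constructor
  · rintro (h | h)
    · exact (mem_cut.1 (Finset.mem_coe.1 h)).2
    · have := h1 n hnx n (mem_cut.2 ⟨le_rfl, hnx⟩) i h
      omega
  · intro h
    exact Or.inl (Finset.mem_coe.2 (mem_cut.2 ⟨by omega, h⟩))

theorem compact_name {p U : Ultrafilter ℕ} (hp : Selective p) {N : Set ℕ → Set ℕ → Prop}
    (hN : IsName N) (hU : ∀ A, A ∈ U ↔ ∃ y ∈ p, N y A) {x : Set ℕ} (hx : x ∈ p) :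
    ∃ n ∈ x, ∀ A B : Set ℕ,
      (∃ y ∈ p, (∀ i ∈ cut x n, ∀ j ∈ y, i < j) ∧ N (↑(cut x n) ∪ y) A) →
      (∃ y ∈ p, (∀ i ∈ cut x n, ∀ j ∈ y, i < j) ∧ N (↑(cut x n) ∪ y) B) →
      ∃ i ≤ n, i ∈ A ∧ i ∈ B := by
  by_contra hcon
  have h : ∀ n ∈ x, ∃ A B y₁ y₂ : Set ℕ, (∀ i ∈ cut x n, ∀ j ∈ y₁, i < j) ∧
      (∀ i ∈ cut x n, ∀ j ∈ y₂, i < j) ∧ N (↑(cut x n) ∪ y₁) A ∧ N (↑(cut x n) ∪ y₂) B ∧
      ∀ i ≤ n, i ∈ A → i ∉ B := by
    intro n hn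
    by_contra hc
    apply hcon
    refine ⟨n, hn, ?_⟩
    rintro A B ⟨y₁, -, h1, h1'⟩ ⟨y₂, -, h2, h2'⟩
    by_contra hi
    exact hc ⟨A, B, y₁, y₂, h1, h2, h1', h2', fun i hin hA hB => hi ⟨i, hin, hA, hB⟩⟩
  choose! A B y₁ y₂ h1 h2 h3 h4 h5 using h
  have hA : {e | {m | e ∈ A m} ∈ p} ∈ U :=
    (hU _).2 ⟨x, hx, compact_lim hp hN hx A y₁ h1 h3⟩
  have hB : {e | {m | e ∈ B m} ∈ p} ∈ U :=
    (hU _).2 ⟨x, hx, compact_lim hp hN hx B y₂ h2 h4⟩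
  obtain ⟨e, heA, heB⟩ := Ultrafilter.nonempty_of_mem
    (Ultrafilter.mem_coe.1 (Filter.inter_mem (Ultrafilter.mem_coe.2 hA) (Ultrafilter.mem_coe.2 hB)))
  have heA' : {m | e ∈ A m} ∈ p := heA
  have heB' : {m | e ∈ B m} ∈ p := heB
  obtain ⟨n, ⟨⟨hnx, hne⟩, hnA⟩, hnB⟩ := Ultrafilter.nonempty_of_mem
    (Ultrafilter.mem_coe.1 (Filter.inter_mem (Filter.inter_mem (Filter.inter_mem
      (Ultrafilter.mem_coe.2 hx) (Ultrafilter.mem_coe.2 (hp.gt_mem e)))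
      (Ultrafilter.mem_coe.2 heA')) (Ultrafilter.mem_coe.2 heB')))
  have hne' : e < n := hne
  exact h5 n hnx e (by omega) hnA hnB

end Pool.Agent.BLA
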