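import Pool.Agent.BLA.Fusion
import Pool.Agent.BLA.Compact

/-!
# Analytic names give closed names

`chi A : ℕ → Bool` is the characteristic function. `AnalyticOver p U`: there is an analytic set `R` of
pairs of points of Cantor space with `A ∈ U ↔ ∃ x ∈ p, (chi x, chi A) ∈ R`.

`R` is nonempty, so `R = range g` for a continuous `g : (ℕ → ℕ) → _`
(`MeasureTheory.AnalyticSet`). Put
`N y A := ∃ z : ℕ → ℕ, (∀ i, (y ∩ {n | n < z i}).ncard ≤ i) ∧ ∃ x B, g z = (chi x, chi B) ∧ y ⊆ x ∧
B ⊆ A`.
If `A ∈ U`, `(chi x, chi A) = g z` with `x ∈ p`: `Selective.rapid` for `z` gives `y ∈ p`, `y ⊆ x`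
with `N y A` (`ncard` is monotone on finite sets). If `N y A` with `y ∈ p`: `x ∈ p`, so `B ∈ U`.
`closed`: let `y` be infinite, with witnesses `y k, A k, z k, x k, B k`. Let `c i` be the `i`-th
element of `y` (`Nat.nth (· ∈ y) i`). For `k > c i`, `y k` contains the `i + 1` elements
`c 0, ..., c i`, so `z k i ≤ c i`. So the limit `z` of `z k` along `p` exists (pointwise eventually
constant along `p`: a bounded sequence is constant on a set of `p`), `(y ∩ {n | n < z i}).ncard ≤ i`,
and by continuity of `g`, `g z` is the limit of `g (z k)` along `p`. Let `x, B` be the sets with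
`g z = (chi x, chi B)`. For `i ∈ y`: `i ∈ y k ⊆ x k` for `k > i`, so `i ∈ x`; for `i ∈ B`: for
`p`-many `k`, `i ∈ B k ⊆ A k`, and `A k` agrees with `A` below `k`, so `i ∈ A`.
-/

namespace Pool.Agent.BLA

open Filter Set

open Classical in
/-- The characteristic function of a set of natural numbers, as a point of Cantor space. -/
noncomputable def chi (A : Set ℕ) : ℕ → Bool := fun n => decide (n ∈ A)

/-- `U` is the image of `p` under an analytic relation: it has an analytic name over `p`. -/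
def AnalyticOver (p U : Ultrafilter ℕ) : Prop :=
  ∃ R : Set ((ℕ → Bool) × (ℕ → Bool)), MeasureTheory.AnalyticSet R ∧
    ∀ A : Set ℕ, A ∈ U ↔ ∃ x ∈ p, (chi x, chi A) ∈ R

theorem chi_apply {A : Set ℕ} {n : ℕ} : chi A n = true ↔ n ∈ A := by
  classical
  unfold chi
  simp

theorem chi_setOf (f : ℕ → Bool) : chi {n | f n = true} = f := by
  funext n
  have h := chi_apply (A := {n | f n = true}) (n := n)
  rw [mem_ofPred_eq] at h
  rcases hb : f n with _ | _
  · rw [hb] at h
    exact Bool.eq_false_iff.2 fun h' => absurd (h.1 h') (by decide)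
  · exact h.2 hb

/-- The closed name attached to the continuous parametrisation `g` of an analytic set. -/
def NG (g : (ℕ → ℕ) → (ℕ → Bool) × (ℕ → Bool)) (y A : Set ℕ) : Prop :=
  ∃ z : ℕ → ℕ, (∀ i, (y ∩ {n | n < z i}).ncard ≤ i) ∧
    ∃ x B : Set ℕ, g z = (chi x, chi B) ∧ y ⊆ x ∧ B ⊆ A

theorem fin_inter (y : Set ℕ) (m : ℕ) : (y ∩ {n | n < m}).Finite :=
  (finite_lt_nat m).subset inter_subset_right

theorem bounded_const (p : Ultrafilter ℕ) (f : ℕ → ℕ) (b : ℕ) (h : {k | f k ≤ b} ∈ p) :
    ∃ v, {k | f k = v} ∈ p := by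
  induction b with
  | zero =>
    refine ⟨0, mem_of_superset h fun k hk => ?_⟩
    rw [mem_ofPred_eq] at hk ⊢
    omega
  | succ b ih =>
    by_cases h1 : {k | f k ≤ b} ∈ p
    · exact ih h1
    · rw [← Ultrafilter.compl_mem_iff_notMem] at h1
      refine ⟨b + 1, mem_of_superset (inter_mem h h1) fun k hk => ?_⟩
      have h2 := hk.1
      have h3 : ¬ f k ≤ b := hk.2
      rw [mem_ofPred_eq] at h2 ⊢
      omega

theorem isName_NG {p : Ultrafilter ℕ} (hp : Selective p)
    {g : (ℕ → ℕ) → (ℕ → Bool) × (ℕ → Bool)} (hg : Continuous g) : IsName (NG g) := by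
  classical
  refine ⟨?_, ?_, ?_⟩
  · rintro y y' A ⟨z, hz, x, B, h1, h2, h3⟩ h
    refine ⟨z, fun i => le_trans (ncard_le_ncard (inter_subset_inter_left _ h) (fin_inter _ _)) (hz i),
      x, B, h1, h.trans h2, h3⟩
  · rintro y A B ⟨z, hz, x, B', h1, h2, h3⟩ h
    exact ⟨z, hz, x, B', h1, h2, h3.trans h⟩
  · intro y A hy H
    choose y' A' h1 h2 z h3 x B h4 h5 h6 using H
    -- bounds for the parameters
    have hb : ∀ i, ∃ c, ∀ k, c < k → z k i ≤ c := by
      intro i
      obtain ⟨t, hty, htf, htc⟩ := hy.exists_subset_ncard_eq (i + 1)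
      obtain ⟨c, hc⟩ := htf.bddAbove
      refine ⟨c, fun k hk => ?_⟩
      by_contra hlt
      push Not at hlt
      have hsub : t ⊆ y' k ∩ {n | n < z k i} := by
        intro n hn
        have hnc : n ≤ c := hc hn
        exact ⟨(h1 k n (by omega)).2 (hty hn), lt_of_le_of_lt hnc hlt⟩
      have h7 := ncard_le_ncard hsub (fin_inter _ _)
      have h8 := h3 k i
      omega
    have hv : ∀ i, ∃ v, {k | z k i = v} ∈ p := by
      intro i
      obtain ⟨c, hc⟩ := hb i
      exact bounded_const p (fun k => z k i) c (mem_of_superset (hp.gt_mem c) fun k hk => hc k hk)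
    choose zl hzl using hv
    have ht : Tendsto z (p : Filter ℕ) (nhds zl) := by
      rw [tendsto_pi_nhds]
      intro i
      exact tendsto_const_nhds.congr' (mem_of_superset (hzl i) fun k hk => Eq.symm hk)
    have hgt : Tendsto (fun k => g (z k)) (p : Filter ℕ) (nhds (g zl)) :=
      (hg.tendsto zl).comp ht
    have hg1 : ∀ i, {k | (g (z k)).1 i = (g zl).1 i} ∈ p := by
      intro i
      have h7 : Tendsto (fun k => (g (z k)).1 i) (p : Filter ℕ) (nhds ((g zl).1 i)) :=
        ((continuous_apply i).comp continuous_fst).continuousAt.tendsto.comp hgt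
      rw [nhds_discrete, tendsto_pure] at h7
      exact h7
    have hg2 : ∀ i, {k | (g (z k)).2 i = (g zl).2 i} ∈ p := by
      intro i
      have h7 : Tendsto (fun k => (g (z k)).2 i) (p : Filter ℕ) (nhds ((g zl).2 i)) :=
        ((continuous_apply i).comp continuous_snd).continuousAt.tendsto.comp hgt
      rw [nhds_discrete, tendsto_pure] at h7
      exact h7
    refine ⟨zl, fun i => ?_, {n | (g zl).1 n = true}, {n | (g zl).2 n = true}, ?_, ?_, ?_⟩
    · obtain ⟨k, hk⟩ := p.nonempty_of_mem (inter_mem (hzl i) (hp.gt_mem (zl i)))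
      have hk1 : z k i = zl i := hk.1
      have hk2 : zl i < k := hk.2
      have e : y ∩ {n | n < zl i} = y' k ∩ {n | n < z k i} := by
        ext n
        rw [mem_inter_iff, mem_inter_iff, mem_ofPred_eq, mem_ofPred_eq, hk1]
        constructor
        · rintro ⟨ha, hb⟩
          exact ⟨(h1 k n (by omega)).2 ha, hb⟩
        · rintro ⟨ha, hb⟩
          exact ⟨(h1 k n (by omega)).1 ha, hb⟩
      rw [e]
      exact h3 k i
    · rw [chi_setOf, chi_setOf]
    · intro i hi
      obtain ⟨k, hk⟩ := p.nonempty_of_mem (inter_mem (hg1 i) (hp.gt_mem i))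
      have hk1 : (g (z k)).1 i = (g zl).1 i := hk.1
      have hk2 : i < k := hk.2
      rw [mem_ofPred_eq, ← hk1, h4 k]
      exact chi_apply.2 (h5 k ((h1 k i hk2).2 hi))
    · intro i hi
      obtain ⟨k, hk⟩ := p.nonempty_of_mem (inter_mem (hg2 i) (hp.gt_mem i))
      have hk1 : (g (z k)).2 i = (g zl).2 i := hk.1
      have hk2 : i < k := hk.2
      rw [mem_ofPred_eq, ← hk1, h4 k] at hi
      exact (h2 k i hk2).1 (h6 k (chi_apply.1 hi))

theorem AnalyticOver.named {p U : Ultrafilter ℕ} (hp : Selective p) (h : AnalyticOver p U) :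
    Named p U := by
  obtain ⟨R, hR, hU⟩ := h
  rw [MeasureTheory.AnalyticSet] at hR
  rcases hR with hR | ⟨g, hg, hgR⟩
  · obtain ⟨x, -, hx⟩ := (hU univ).1 univ_mem
    rw [hR] at hx
    exact absurd hx (notMem_empty _)
  refine ⟨NG g, isName_NG hp hg, fun A => ⟨fun hA => ?_, ?_⟩⟩
  · obtain ⟨x, hx, hxR⟩ := (hU A).1 hA
    rw [← hgR] at hxR
    obtain ⟨z, hz⟩ := hxR
    obtain ⟨w, hw, hwz⟩ := hp.rapid z
    refine ⟨w ∩ x, inter_mem hw hx, z, fun i => le_trans (ncard_le_ncard ?_ (fin_inter _ _)) (hwz i),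
      x, A, hz, inter_subset_right, Subset.refl _⟩
    exact inter_subset_inter_left _ inter_subset_left
  · rintro ⟨y, hy, z, hz, x, B, h1, h2, h3⟩
    refine mem_of_superset ((hU B).2 ⟨x, mem_of_superset hy h2, ?_⟩) h3
    rw [← hgR, ← h1]
    exact mem_range_self z

end Pool.Agent.BLA
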