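import Pool.Agent.BLA.Defs

/-!
# Images of named ultrafilters are named

`N' y A := N y (g ⁻¹' A)`. For `closed`: given `k`, use the hypothesis for
`K = max k (1 + max_{i < k} g i)`.
-/

namespace Pool.Agent.BLA

open Filter Set

theorem Named.map {p U : Ultrafilter ℕ} (hU : Named p U) (g : ℕ → ℕ) : Named p (U.map g) := by
  obtain ⟨N, hN, hU⟩ := hU
  refine ⟨fun y A => N y (g ⁻¹' A), ⟨?_, ?_, ?_⟩, ?_⟩
  · intro y y' A h hy
    exact hN.mono y y' _ h hy
  · intro y A B h hAB
    exact hN.up y _ _ h (preimage_mono hAB)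
  · intro y A hy h
    refine hN.closed y _ hy fun k => ?_
    obtain ⟨y', A', h1, h2, h3⟩ := h (max k (1 + (Finset.range k).sup g))
    refine ⟨y', g ⁻¹' A', fun i hi => h1 i (lt_max_of_lt_left hi), fun i hi => ?_, h3⟩
    have h4 : g i ≤ (Finset.range k).sup g := Finset.le_sup (f := g) (Finset.mem_range.2 hi)
    exact h2 (g i) (lt_max_of_lt_right (by omega))
  · intro A
    rw [Ultrafilter.mem_map]
    exact hU _

end Pool.Agent.BLA
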