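import Pool.Agent.BLA.NC
import Pool.Agent.BLA.NameImage

/-!
# Descending skies

`NC` (`Named.exists_map_eq`) for `U.map μ` gives `h` with `(U.map μ).map h = p`; let
`n₁ = h ∘ μ`. As `¬ LeastSky p U n₁`, there are `A i ∈ U` such that no `A' ∈ U`, `j` satisfy
`∀ i, ∀ e ∈ A', j i < n₁ e → e ∈ A i`. Let `g e = sInf ({i | e ∉ A i} ∪ {e})`; then
`{e | i < g e} ∈ U` for all `i` (`U` is nonprincipal because `μ → ∞` modulo `U`).
(∗) For every `ψ : ℕ → ℕ` tending to infinity, `{e | g e < ψ (n₁ e)} ∈ U`: otherwise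
`A' = {e | ψ (n₁ e) ≤ g e} ∈ U` and `j i` with `ψ k > i` for all `k > j i` is a witness for
`LeastSky p U n₁`.
`NC` for `U.map g` gives `h₂` with `(U.map g).map h₂ = p`. Let `H₂ k = max_{i ≤ k} h₂ i`, let
`β k` be the least `m` with `h m = k` (and `k` if there is none), so `β (h m) ≤ m` and `β → ∞`, and
`ψ k` the largest `r ≤ k` with `H₂ r < β k` (`0` if there is none); `ψ → ∞`. The map `n = h₂ ∘ g`
works: if `g e < ψ (n₁ e)` then `n e = h₂ (g e) ≤ H₂ (ψ (n₁ e)) < β (n₁ e) = β (h (μ e)) ≤ μ e`.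
-/

namespace Pool.Agent.BLA

open Filter Set

private theorem le_sup (f : ℕ → ℕ) {i k : ℕ} (h : i ≤ k) :
    f i ≤ (Finset.range (k + 1)).sup f :=
  Finset.le_sup (f := f) (Finset.mem_range.2 (Nat.lt_succ_of_le h))

theorem sky_down {p U : Ultrafilter ℕ} (hp : Selective p) (hU : Named p U)
    (hL : ∀ f, ¬ LeastSky p U f) (μ : ℕ → ℕ) (hμ : ∀ j, {e | j < μ e} ∈ U) :
    ∃ n : ℕ → ℕ, U.map n = p ∧ {e | n e < μ e} ∈ U := by
  -- `U` contains the final segments
  have hfin : ∀ i, {e : ℕ | i < e} ∈ U := by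
    intro i
    refine Filter.mem_of_superset (hμ ((Finset.range (i + 1)).sup μ)) ?_
    intro e he
    by_contra hc
    have hc' : e ≤ i := not_lt.1 hc
    exact absurd (le_sup μ hc') (not_le.2 he)
  -- the first map
  have hn1 : ∀ n : ℕ, ({n} : Set ℕ) ∉ U.map μ := by
    intro n hn
    have h1 : μ ⁻¹' {n} ∈ U := hn
    have h2 := Filter.inter_mem h1 (hμ n)
    obtain ⟨e, he1, he2⟩ := Ultrafilter.nonempty_of_mem h2
    have he1' : μ e = n := he1
    have he2' : n < μ e := he2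
    omega
  obtain ⟨h, hh⟩ := Named.exists_map_eq hp (hU.map μ) hn1
  have hmap : U.map (h ∘ μ) = p := by rw [← hh, Ultrafilter.map_map]
  have hLS := hL (h ∘ μ)
  unfold LeastSky at hLS
  push Not at hLS
  obtain ⟨A, hA, hA'⟩ := hLS hmap
  -- the function `g`
  obtain ⟨g, hg⟩ : ∃ g : ℕ → ℕ, g = fun e => sInf ({i | e ∉ A i} ∪ {e}) := ⟨_, rfl⟩
  have hgmem : ∀ e, g e ∈ ({i | e ∉ A i} ∪ {e} : Set ℕ) := by
    intro e
    rw [hg]
    exact Nat.sInf_mem ⟨e, Or.inr rfl⟩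
  have hgle : ∀ e i, e ∉ A i → g e ≤ i := by
    intro e i hi
    rw [hg]
    exact Nat.sInf_le (Or.inl hi)
  have hgU : ∀ i, {e | i < g e} ∈ U := by
    intro i
    have h1 : (⋂ k ∈ Finset.range (i + 1), A k) ∈ (U : Filter ℕ) :=
      (Filter.biInter_finset_mem _).2 fun k _ => hA k
    refine Filter.mem_of_superset (Filter.inter_mem h1 (hfin i)) ?_
    rintro e ⟨he1, he2⟩
    have he2' : i < e := he2
    by_contra hc
    have hc' : g e ≤ i := not_lt.1 hc
    rcases hgmem e with h3 | h3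
    · have h4 := Set.mem_iInter₂.1 he1 (g e) (Finset.mem_range.2 (Nat.lt_succ_of_le hc'))
      exact h3 h4
    · have h3' : g e = e := h3
      omega
  -- the key property
  have hstar : ∀ ψ : ℕ → ℕ, (∀ K, ∃ k0, ∀ k, k0 < k → K < ψ k) →
      {e | g e < ψ (h (μ e))} ∈ U := by
    intro ψ hψ
    by_contra hc
    rw [← Ultrafilter.compl_mem_iff_notMem] at hc
    choose j hj using hψ
    obtain ⟨i, e, he, hje, hei⟩ := hA' _ hc j
    have h1 : ¬ (g e < ψ (h (μ e))) := he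
    have h2 := hj i (h (μ e)) hje
    have h3 := hgle e i hei
    omega
  -- the second map
  have hn2 : ∀ n : ℕ, ({n} : Set ℕ) ∉ U.map g := by
    intro n hn
    have h1 : g ⁻¹' {n} ∈ U := hn
    have h2 := Filter.inter_mem h1 (hgU n)
    obtain ⟨e, he1, he2⟩ := Ultrafilter.nonempty_of_mem h2
    have he1' : g e = n := he1
    have he2' : n < g e := he2
    omega
  obtain ⟨h2, hh2⟩ := Named.exists_map_eq hp (hU.map g) hn2
  have hmap2 : U.map (h2 ∘ g) = p := by rw [← hh2, Ultrafilter.map_map]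
  obtain ⟨H2, hH2⟩ : ∃ H2 : ℕ → ℕ, H2 = fun k => (Finset.range (k + 1)).sup h2 := ⟨_, rfl⟩
  have hH2le : ∀ i k, i ≤ k → h2 i ≤ H2 k := by
    intro i k hik
    rw [hH2]
    exact le_sup h2 hik
  obtain ⟨β, hβ⟩ : ∃ β : ℕ → ℕ, β = fun k => sInf ({m | h m = k} ∪ {k}) := ⟨_, rfl⟩
  have hβle : ∀ m, β (h m) ≤ m := by
    intro m
    rw [hβ]
    exact Nat.sInf_le (Or.inl rfl)
  have hβmem : ∀ k, β k ∈ ({m | h m = k} ∪ {k} : Set ℕ) := by
    intro k
    rw [hβ]
    exact Nat.sInf_mem ⟨k, Or.inr rfl⟩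
  have hβinf : ∀ K, ∃ k0, ∀ k, k0 < k → K < β k := by
    intro K
    refine ⟨max K ((Finset.range (K + 1)).sup h), fun k hk => ?_⟩
    by_contra hc
    have hc' : β k ≤ K := not_lt.1 hc
    rcases hβmem k with h3 | h3
    · have h3' : h (β k) = k := h3
      have h4 := le_sup h hc'
      have h5 : (Finset.range (K + 1)).sup h ≤ max K ((Finset.range (K + 1)).sup h) :=
        le_max_right _ _
      omega
    · have h3' : β k = k := h3
      have h5 : K ≤ max K ((Finset.range (K + 1)).sup h) := le_max_left _ _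
      omega
  classical
  obtain ⟨ψ, hψ⟩ : ∃ ψ : ℕ → ℕ, ψ = fun k => Nat.findGreatest (fun r => H2 r < β k) k :=
    ⟨_, rfl⟩
  have hψinf : ∀ K, ∃ k0, ∀ k, k0 < k → K < ψ k := by
    intro K
    obtain ⟨k0, hk0⟩ := hβinf (H2 (K + 1))
    refine ⟨max k0 (K + 1), fun k hk => ?_⟩
    have h3 : k0 < k := lt_of_le_of_lt (le_max_left _ _) hk
    have h4 : K + 1 < k := lt_of_le_of_lt (le_max_right _ _) hk
    rw [hψ]
    exact Nat.lt_of_succ_le (Nat.le_findGreatest h4.le (hk0 k h3))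
  refine ⟨h2 ∘ g, hmap2, Filter.mem_of_superset (hstar ψ hψinf) ?_⟩
  intro e he
  have he' : g e < ψ (h (μ e)) := he
  have h3 : H2 (ψ (h (μ e))) < β (h (μ e)) := by
    have h4 : ψ (h (μ e)) ≠ 0 := by omega
    have h5 : Nat.findGreatest (fun r => H2 r < β (h (μ e))) (h (μ e)) = ψ (h (μ e)) := by
      rw [hψ]
    exact Nat.findGreatest_of_ne_zero (P := fun r => H2 r < β (h (μ e))) h5 h4
  have h4 := hH2le (g e) (ψ (h (μ e))) he'.le
  have h5 := hβle (μ e)
  show h2 (g e) < μ e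
  omega

end Pool.Agent.BLA
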