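import Pool.Agent.BLA.Exit
import Pool.Agent.BLA.SkyDown

/-!
# No least sky: `U` sees the next tree

Let `f m` witness `Sees p U (T m)` and `Ok m e := f m e ∈ Br (T m) ∧ ∀ i ∈ f m e, m < i`.
`Named.exit` gives `z₀ ∈ p`. Let `μ = J Ok f z₀`. For every `j`, `{e | j < μ e} ∈ U`: apply `Sees`
for `m ≤ j` to `z₀ ∩ {i | m < i} ∈ p` (finite intersection), and `{e | j < e} ∈ U` (`hn`).
`sky_down` gives `n` with `U.map n = p` and `{e | n e < μ e} ∈ U`. Put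
`Fn e = insert (n e) (f (n e) e)`. For `z ∈ p` let `z' = z ∩ z₀`; for `U`-many `e`:
`J z' e = J z₀ e = μ e`, `n e ∈ z`, `n e < μ e = J z' e`, so `Ok (n e) e` and `f (n e) e ⊆ z'`, so
`Fn e ∈ Br (node T)` and `Fn e ⊆ z`.
-/

namespace Pool.Agent.BLA

open Filter Set

theorem sees_node_of_no_least {p U : Ultrafilter ℕ} (hp : Selective p) (hU : Named p U)
    (hn : ∀ n : ℕ, ({n} : Set ℕ) ∉ U) (hL : ∀ f, ¬ LeastSky p U f) (T : ℕ → PTree)
    (hT : ∀ m, Sees p U (T m)) : Sees p U (.node T) := by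
  choose f hf using hT
  obtain ⟨z₀, hz₀, hst⟩ := hU.exit hp
    (fun m e => f m e ∈ Br (T m) ∧ ∀ i ∈ f m e, m < i) f
  obtain ⟨μ, hμdef⟩ : ∃ μ : ℕ → ℕ, μ = fun e =>
    J (fun m e => f m e ∈ Br (T m) ∧ ∀ i ∈ f m e, m < i) f z₀ e := ⟨_, rfl⟩
  have hμ : ∀ j, {e | j < μ e} ∈ U := by
    intro j
    have h1 : (⋂ m ∈ Finset.range (j + 1),
        {e | f m e ∈ Br (T m) ∧ (f m e : Set ℕ) ⊆ z₀ ∩ {i | m < i}}) ∈ (U : Filter ℕ) :=
      (Filter.biInter_finset_mem _).2 fun m _ => hf m _ (Filter.inter_mem hz₀ (hp.gt_mem m))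
    have h2 : {e | j + 1 ≤ e} ∈ U := ge_mem_of_nonprincipal hn (j + 1)
    filter_upwards [h1, h2] with e he1 he2
    rw [hμdef]
    show j < J _ f z₀ e
    by_contra hc
    push Not at hc
    rcases ex_J_mem (Ok := fun m e => f m e ∈ Br (T m) ∧ ∀ i ∈ f m e, m < i) (f := f) z₀ e
      with h | h
    · have h3 := Set.mem_iInter₂.1 he1 _ (Finset.mem_range.2 (Nat.lt_succ_of_le hc))
      obtain ⟨h4, h5⟩ := h3
      exact h ⟨⟨h4, fun i hi => (h5 hi).2⟩, fun i hi => (h5 hi).1⟩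
    · have he2' : j + 1 ≤ e := he2
      omega
  obtain ⟨n, hn1, hn2⟩ := sky_down hp hU hL μ hμ
  refine ⟨fun e => insert (n e) (f (n e) e), fun z hz => ?_⟩
  have h1 := hst (z ∩ z₀) (Filter.inter_mem hz hz₀) Set.inter_subset_right
  have h2 : n ⁻¹' z ∈ U := by
    have : z ∈ U.map n := by rw [hn1]; exact hz
    exact this
  filter_upwards [h1, h2, hn2] with e he1 he2 he3
  have he1' : J (fun m e => f m e ∈ Br (T m) ∧ ∀ i ∈ f m e, m < i) f (z ∩ z₀) e = μ e := by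
    rw [hμdef]; exact he1
  have he3' : n e < J (fun m e => f m e ∈ Br (T m) ∧ ∀ i ∈ f m e, m < i) f (z ∩ z₀) e := by
    rw [he1']; exact he3
  obtain ⟨⟨h4, h5⟩, h6⟩ := ex_ok_of_lt_J he3'
  refine ⟨⟨n e, f (n e) e, h4, h5, rfl⟩, ?_⟩
  intro i hi
  rw [Finset.coe_insert] at hi
  rcases hi with rfl | hi
  · exact he2
  · exact (h6 hi).1

end Pool.Agent.BLA
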