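import Pool.Agent.BLA.Diag

/-!
# Fusion and bar induction along a selective ultrafilter

`fusion`: apply `Selective.diag` to `X' k = ⋂ {X s | s ⊆ range (k+1)}` (a finite intersection), and
intersect the result with `X ∅`; for nonempty `s ⊆ x` use `k = max s ∈ x`.

`bar`: if `P ∅` fails, let `X s = {n | ¬ ((∀ i ∈ s, i < n) ∧ P (insert n s))}` when `¬ P s`
(this is in `p` since its complement is not) and `X s = univ` otherwise; on the set `x` given by
`fusion`, `¬ P s` for all finite `s ⊆ x` by induction on `s` (`Finset.induction_on_max`).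

`rapid`: from `diag` with `X k = {n | Z (k+1) ≤ n}`, `Z i = max_{j ≤ i} z j`, intersected with
`{n | z 0 ≤ n}`: the `i`-th element of `x` is at least `z i`.

`sparse`: `diag` with `X k = {n | b k < n}`.
-/

namespace Pool.Agent.BLA

open Filter Set

theorem Selective.fusion {p : Ultrafilter ℕ} (hp : Selective p) (X : Finset ℕ → Set ℕ)
    (hX : ∀ s, X s ∈ p) :
    ∃ x ∈ p, ∀ s : Finset ℕ, (s : Set ℕ) ⊆ x → ∀ n ∈ x, (∀ i ∈ s, i < n) → n ∈ X s := by
  obtain ⟨x, hx, h⟩ := hp.diag (fun k => ⋂ s ∈ (Finset.range (k + 1)).powerset, X s) (by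
    intro k
    rw [← Ultrafilter.mem_coe, Filter.biInter_finset_mem]
    exact fun s _ => hX s)
  refine ⟨x ∩ X ∅, (Filter.inter_mem hx (hX ∅) : x ∩ X ∅ ∈ (p : Filter ℕ)), ?_⟩
  intro s hs n hn hlt
  rcases s.eq_empty_or_nonempty with rfl | hne
  · exact hn.2
  · have h1 := s.max'_mem hne
    have h2 := h (s.max' hne) (hs h1).1 n hn.1 (hlt _ h1)
    rw [mem_iInter₂] at h2
    refine h2 s ?_
    rw [Finset.mem_powerset]
    intro i hi
    rw [Finset.mem_range, Nat.lt_succ_iff]
    exact s.le_max' i hi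

theorem Selective.bar {p : Ultrafilter ℕ} (hp : Selective p) (P : Finset ℕ → Prop)
    (hP : ∀ s, {n | (∀ i ∈ s, i < n) ∧ P (insert n s)} ∈ p → P s) :
    P ∅ ∨ ∃ x ∈ p, ∀ s : Finset ℕ, (s : Set ℕ) ⊆ x → ¬ P s := by
  classical
  by_cases h0 : P ∅
  · exact Or.inl h0
  right
  obtain ⟨x, hx, h⟩ := hp.fusion
    (fun s => {n | ¬ P s → ¬ ((∀ i ∈ s, i < n) ∧ P (insert n s))}) (by
    intro s
    by_cases hs : P s
    · have : {n : ℕ | ¬ P s → ¬ ((∀ i ∈ s, i < n) ∧ P (insert n s))} = univ := by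
        ext n
        simp [hs]
      rw [this]
      exact Filter.univ_mem
    · have h1 : {n | (∀ i ∈ s, i < n) ∧ P (insert n s)} ∉ p := fun h => hs (hP s h)
      have h2 := Ultrafilter.compl_mem_iff_notMem.2 h1
      refine Filter.mem_of_superset h2 ?_
      intro n hn _
      exact hn)
  refine ⟨x, hx, ?_⟩
  intro s
  induction s using Finset.induction_on_max with
  | empty => intro _; exact h0
  | insert a s ha ih =>
    intro hs hPa
    have hs' : (s : Set ℕ) ⊆ x := fun i hi => hs (Finset.mem_coe.2 (Finset.mem_insert_of_mem hi))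
    have hax : a ∈ x := hs (Finset.mem_coe.2 (Finset.mem_insert_self a s))
    exact h s hs' a hax ha (ih hs') ⟨ha, hPa⟩

theorem Selective.rapid {p : Ultrafilter ℕ} (hp : Selective p) (z : ℕ → ℕ) :
    ∃ x ∈ p, ∀ i, (x ∩ {n | n < z i}).ncard ≤ i := by
  have hge : ∀ m, {n : ℕ | m ≤ n} ∈ p := fun m =>
    Filter.mem_of_superset (hp.gt_mem m) (fun n (hn : m < n) => le_of_lt hn)
  set Z : ℕ → ℕ := fun i => (Finset.range (i + 1)).sup z with hZ
  have hZz : ∀ i, z i ≤ Z i := fun i => Finset.le_sup (Finset.self_mem_range_succ i)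
  have hZm : Monotone Z := fun i j hij => Finset.sup_mono (Finset.range_mono (by omega))
  obtain ⟨x, hx, h⟩ := hp.diag (fun k => {n | Z (k + 1) ≤ n}) (fun k => hge _)
  refine ⟨x ∩ {n | Z 0 ≤ n}, (Filter.inter_mem hx (hge (Z 0)) : _ ∈ (p : Filter ℕ)), ?_⟩
  intro i
  have hfin : (x ∩ {n | Z 0 ≤ n} ∩ {n | n < z i}).Finite :=
    (Set.finite_lt_nat (z i)).subset inter_subset_right
  rcases Set.eq_empty_or_nonempty (x ∩ {n | Z 0 ≤ n} ∩ {n | n < z i}) with he | hne
  · rw [he]
    simp
  · obtain ⟨M, hM, hmax⟩ := hfin.exists_maximal hne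
    have hi0 : i ≠ 0 := by
      rintro rfl
      have h1 : Z 0 ≤ M := hM.1.2
      have h2 : M < z 0 := hM.2
      have := hZz 0
      omega
    have hsub : x ∩ {n | Z 0 ≤ n} ∩ {n | n < z i} ⊆ insert M ((Finset.range (i - 1) : Finset ℕ) : Set ℕ) := by
      intro k hk
      rw [mem_insert_iff]
      by_cases hkM : k = M
      · exact Or.inl hkM
      · right
        have hkM' : k < M := by
          rcases lt_trichotomy k M with h1 | h1 | h1
          · exact h1
          · exact absurd h1 hkM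
          · have := hmax hk h1.le
            omega
        have h3 : Z (k + 1) ≤ M := h k hk.1.1 M hM.1.1 hkM'
        have h4 : M < Z i := lt_of_lt_of_le hM.2 (hZz i)
        have h5 : k + 1 < i := by
          by_contra hcon
          rw [not_lt] at hcon
          have := hZm hcon
          omega
        rw [Finset.mem_coe, Finset.mem_range]
        omega
    refine (Set.ncard_le_ncard hsub ((Finset.finite_toSet _).insert M)).trans ?_
    refine (Set.ncard_insert_le _ _).trans ?_
    rw [Set.ncard_coe_finset, Finset.card_range]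
    omega

theorem Selective.sparse {p : Ultrafilter ℕ} (hp : Selective p) (b : ℕ → ℕ) :
    ∃ x ∈ p, ∀ k ∈ x, ∀ n ∈ x, k < n → b k < n :=
  hp.diag (fun k => {n | b k < n}) (fun k => hp.gt_mem _)

end Pool.Agent.BLA
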