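import Pool.Agent.BLA.Front
import Pool.Agent.BLA.Fusion

/-!
# A named ultrafilter does not see all trees

Take `F, C` from `exists_rep`.

Step 1: there are a tree `τ` and `X ∈ p` such that every `b ∈ Br τ` with `b ⊆ X` has a proper
initial segment `t ∈ F` (`Init t b`, `t ≠ b`). Bar induction (`Selective.bar`) with
`P s := ∃ τ, ∃ X ∈ p, ∀ b ∈ Br τ, b ⊆ X → (∀ i ∈ s, ∀ j ∈ b, i < j) → ∃ t ∈ F, Init t (s ∪ b) ∧
t ≠ s ∪ b`. If `{n | n > s, P (insert n s)} ∈ p`, choose `τ n, X n` for these `n`; use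
`τ = node τ'` and an `X ∈ p` contained in that set with `X ∩ (n, ∞) ⊆ X n` for `n ∈ X` (`diag`).
If `P ∅` fails, there is `x ∈ p` with `¬ P s` for all `s ⊆ x`, but `Rep.bar` gives `t ∈ F`, `t ⊆ x`
and `P t` holds (`τ = node (fun _ => leaf)`, `X = univ`).

Step 2: suppose `f` witnesses `Sees p U τ`. For `e` with `f e ∈ Br τ`, `f e ⊆ X` let `t e ∈ F` be a
proper initial segment of `f e`. Let `z₁ ∈ p` be sparse (`Selective.sparse`) for
`b k = max {elements of f e | e ≤ k}`. If `z ⊆ X ∩ z₁` is in `p` and `f e ⊆ z` then `top (t e) < e`: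
`k = top (t e) ∈ z` and some `n' ∈ f e` satisfies `k < n'`, `n' ∈ z`, so `n' > b k`; `e ≤ k` would give
`n' ≤ b k`. Define `A₀` by strong recursion:
`e ∈ A₀ ↔ f e ∈ Br τ ∧ f e ⊆ X ∧ top (t e) < e ∧ {i ∈ A₀ | i ≤ top (t e)} ∉ C (t e)`.
If `A₀ ∈ U` take `y ∈ p` from `Rep.mem` for `A₀` and `z = y ∩ X ∩ z₁`: for `U`-many `e`, `f e ⊆ z`,
so `A₀ ∈ C (t e)`, so `{i ∈ A₀ | i ≤ top (t e)} ∈ C (t e)` by `Rep.up` and `e ∉ A₀`, a
contradiction. If `A₀ᶜ ∈ U` take `y ∈ p` for `A₀ᶜ`: for `U`-many `e`, `A₀ᶜ ∈ C (t e)` so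
`{i ∈ A₀ | i ≤ top (t e)} ∉ C (t e)` by `Rep.inter`, and `top (t e) < e`, so `e ∈ A₀`, a
contradiction.
-/

namespace Pool.Agent.BLA

open Filter Set

/-- Recursive definition of a set of natural numbers. -/
private lemma exists_rec (Φ : ℕ → Set ℕ → Prop) :
    ∃ A : Set ℕ, ∀ e, e ∈ A ↔ Φ e {i | i ∈ A ∧ i < e} := by
  classical
  let B : ℕ → Set ℕ := fun n =>
    Nat.rec (∅ : Set ℕ) (fun n S => S ∪ {e | e = n ∧ Φ n S}) n
  have hB0 : B 0 = ∅ := rfl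
  have hBs : ∀ n, B (n + 1) = B n ∪ {e | e = n ∧ Φ n (B n)} := fun n => rfl
  have hlt : ∀ n, ∀ e ∈ B n, e < n := by
    intro n
    induction n with
    | zero => intro e he; rw [hB0] at he; exact absurd he (Set.notMem_empty e)
    | succ n ih =>
      intro e he
      rw [hBs] at he
      rcases he with he | ⟨he, _⟩
      · have := ih e he
        omega
      · omega
  have hmono : ∀ n e, e < n → (e ∈ B n ↔ e ∈ B (e + 1)) := by
    intro n
    induction n with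
    | zero => intro e he; omega
    | succ n ih =>
      intro e he
      by_cases h : e = n
      · rw [h]
      · rw [hBs]
        constructor
        · rintro (h1 | ⟨h1, _⟩)
          · exact (ih e (by omega)).1 h1
          · exact absurd h1 h
        · intro h1
          exact Or.inl ((ih e (by omega)).2 h1)
  refine ⟨{e | e ∈ B (e + 1)}, fun e => ?_⟩
  have h1 : {i | i ∈ {e | e ∈ B (e + 1)} ∧ i < e} = B e := by
    ext i
    constructor
    · rintro ⟨h1, h2⟩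
      exact (hmono e i h2).2 h1
    · intro h
      have h2 := hlt e i h
      exact ⟨(hmono e i h2).1 h, h2⟩
  rw [h1]
  constructor
  · intro h
    have h2 : e ∈ B (e + 1) := h
    rw [hBs] at h2
    rcases h2 with h2 | h2
    · have := hlt e e h2
      omega
    · exact h2.2
  · intro h
    change e ∈ B (e + 1)
    rw [hBs]
    exact Or.inr ⟨rfl, h⟩

private lemma top_mem {s : Finset ℕ} (hs : s.Nonempty) : top s ∈ s := by
  obtain ⟨b, hb, hb2⟩ := Finset.exists_mem_eq_sup s hs id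
  unfold top
  rw [hb2]; exact hb

private lemma le_top {s : Finset ℕ} {i : ℕ} (hi : i ∈ s) : i ≤ top s :=
  Finset.le_sup (f := id) hi

private lemma exists_tree {p U : Ultrafilter ℕ} (hp : Selective p) {F : Set (Finset ℕ)}
    {C : Finset ℕ → Set (Set ℕ)} (hR : Rep p U F C) :
    ∃ τ, ∃ X ∈ p, ∀ b ∈ Br τ, (b : Set ℕ) ⊆ X → ∃ t ∈ F, Init t b ∧ t ≠ b := by
  classical
  have hbar := hp.bar (fun s => ∃ τ, ∃ X ∈ p, ∀ b ∈ Br τ, (b : Set ℕ) ⊆ X →
    (∀ i ∈ s, ∀ j ∈ b, i < j) → ∃ t ∈ F, Init t (s ∪ b) ∧ t ≠ s ∪ b) (by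
    intro s hs
    have hch : ∀ n, ∃ τ, ∃ X ∈ p, (∀ i ∈ s, i < n) ∧ (∃ τ, ∃ X ∈ p, ∀ b ∈ Br τ, (b : Set ℕ) ⊆ X →
        (∀ i ∈ insert n s, ∀ j ∈ b, i < j) →
        ∃ t ∈ F, Init t (insert n s ∪ b) ∧ t ≠ insert n s ∪ b) →
        ∀ b ∈ Br τ, (b : Set ℕ) ⊆ X → (∀ i ∈ insert n s, ∀ j ∈ b, i < j) →
        ∃ t ∈ F, Init t (insert n s ∪ b) ∧ t ≠ insert n s ∪ b := by
      intro n
      by_cases h : (∀ i ∈ s, i < n) ∧ (∃ τ, ∃ X ∈ p, ∀ b ∈ Br τ, (b : Set ℕ) ⊆ X →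
        (∀ i ∈ insert n s, ∀ j ∈ b, i < j) →
        ∃ t ∈ F, Init t (insert n s ∪ b) ∧ t ≠ insert n s ∪ b)
      · obtain ⟨_, τ, X, hX, h2⟩ := h
        exact ⟨τ, X, hX, fun _ => h2⟩
      · exact ⟨.leaf, Set.univ, Filter.univ_mem, fun h3 => absurd h3 h⟩
    choose τ X hX hτ using hch
    obtain ⟨x, hx, hd⟩ := hp.diag X hX
    refine ⟨.node τ, x ∩ {n | (∀ i ∈ s, i < n) ∧ ∃ τ, ∃ X ∈ p, ∀ b ∈ Br τ, (b : Set ℕ) ⊆ X →
      (∀ i ∈ insert n s, ∀ j ∈ b, i < j) →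
      ∃ t ∈ F, Init t (insert n s ∪ b) ∧ t ≠ insert n s ∪ b}, Filter.inter_mem hx hs, ?_⟩
    rintro b ⟨m, b', hb', hmb, rfl⟩ hbX hsb
    have hmX := hbX (Finset.mem_coe.2 (Finset.mem_insert_self m b'))
    have h1 := hτ m hmX.2 b' hb' (by
      intro i hi
      have h2 := hbX (Finset.mem_coe.2 (Finset.mem_insert_of_mem (Finset.mem_coe.1 hi)))
      exact hd m hmX.1 i h2.1 (hmb i hi)) (by
      intro i hi j hj
      rcases Finset.mem_insert.1 hi with h2 | h2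
      · rw [h2]; exact hmb j hj
      · exact hsb i h2 j (Finset.mem_insert_of_mem hj))
    have e : insert m s ∪ b' = s ∪ insert m b' := by
      ext i
      simp only [Finset.mem_union, Finset.mem_insert]
      tauto
    rw [e] at h1
    exact h1)
  rcases hbar with ⟨τ, X, hX, h⟩ | ⟨x, hx, h⟩
  · refine ⟨τ, X, hX, fun b hb hbX => ?_⟩
    have := h b hb hbX (fun i hi => absurd hi (Finset.notMem_empty i))
    rwa [Finset.empty_union] at this
  · exfalso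
    obtain ⟨s, hsF, hsx, _⟩ := hR.bar x hx
    refine h s hsx ⟨.node (fun _ => .leaf), Set.univ, Filter.univ_mem, ?_⟩
    rintro b ⟨m, b', hb', hmb, rfl⟩ _ hsb
    have hms : ∀ i ∈ s, i < m := fun i hi => hsb i hi m (Finset.mem_insert_self _ _)
    have hb'0 : b' = ∅ := hb'
    subst hb'0
    refine ⟨s, hsF, ⟨Finset.subset_union_left, ?_⟩, ?_⟩
    · intro i hi his j hj
      rcases Finset.mem_union.1 hi with h1 | h1
      · exact absurd h1 his
      · rcases Finset.mem_insert.1 h1 with h2 | h2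
        · rw [h2]; exact hms j hj
        · exact absurd h2 (Finset.notMem_empty i)
    · intro h1
      have h2 : m ∈ s := by
        rw [h1]
        exact Finset.mem_union_right _ (Finset.mem_insert_self _ _)
      exact lt_irrefl _ (hms m h2)

theorem exists_not_sees {p U : Ultrafilter ℕ} (hp : Selective p) (hU : Named p U) :
    ∃ τ, ¬ Sees p U τ := by
  classical
  obtain ⟨F, C, hR⟩ := exists_rep hp hU
  obtain ⟨τ, X, hX, hτ⟩ := exists_tree hp hR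
  refine ⟨τ, ?_⟩
  rintro ⟨f, hf⟩
  have hch : ∀ e, ∃ t : Finset ℕ, f e ∈ Br τ → (f e : Set ℕ) ⊆ X →
      t ∈ F ∧ Init t (f e) ∧ t ≠ f e := by
    intro e
    by_cases h : f e ∈ Br τ ∧ (f e : Set ℕ) ⊆ X
    · obtain ⟨t, h1, h2, h3⟩ := hτ _ h.1 h.2
      exact ⟨t, fun _ _ => ⟨h1, h2, h3⟩⟩
    · exact ⟨∅, fun h1 h2 => absurd ⟨h1, h2⟩ h⟩
  choose t ht using hch
  obtain ⟨z₁, hz₁, hsp⟩ := hp.sparse (fun k => (Finset.range (k + 1)).sup (fun e => top (f e)))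
  have hlt : ∀ e, f e ∈ Br τ → (f e : Set ℕ) ⊆ X → (f e : Set ℕ) ⊆ z₁ → top (t e) < e := by
    intro e h1 h2 h3
    obtain ⟨h4, h5, h6⟩ := ht e h1 h2
    have h7 : top (t e) ∈ t e := top_mem (hR.nonempty _ h4)
    obtain ⟨n', hn', hn''⟩ : ∃ n' ∈ f e, n' ∉ t e := by
      by_contra h
      push Not at h
      exact h6 (Finset.Subset.antisymm h5.1 h)
    have h8 : top (t e) < n' := h5.2 n' hn' hn'' _ h7
    have h9 := hsp _ (h3 (Finset.mem_coe.2 (h5.1 h7))) n' (h3 (Finset.mem_coe.2 hn')) h8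
    by_contra h10
    have h11 : top (f e) ≤ (Finset.range (top (t e) + 1)).sup (fun e => top (f e)) :=
      Finset.le_sup (f := fun e => top (f e)) (Finset.mem_range.2 (by omega))
    have h12 := le_top hn'
    omega
  obtain ⟨A, hA⟩ := exists_rec (fun e B => f e ∈ Br τ ∧ (f e : Set ℕ) ⊆ X ∧ top (t e) < e ∧
    {i | i ∈ B ∧ i ≤ top (t e)} ∉ C (t e))
  rcases Ultrafilter.mem_or_compl_mem U A with hAU | hAU
  · obtain ⟨y, hy, hyA⟩ := hR.mem A hAU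
    have h1 := hf (y ∩ X ∩ z₁) (Filter.inter_mem (Filter.inter_mem hy hX) hz₁)
    obtain ⟨e, ⟨h2, h3⟩, h4⟩ := U.nonempty_of_mem (Filter.inter_mem h1 hAU)
    obtain ⟨-, h5, h6, h7⟩ := (hA e).1 h4
    obtain ⟨h8, h9, h10⟩ := ht e h2 h5
    have h11 : A ∈ C (t e) := hyA (t e) h8 (fun i hi => (h3 (Finset.mem_coe.2 (h9.1 hi))).1.1)
    exact h7 (hR.up _ h8 A h11 _ fun i hi hiA => ⟨⟨hiA, by omega⟩, hi⟩)
  · obtain ⟨y, hy, hyA⟩ := hR.mem _ hAU
    have h1 := hf (y ∩ X ∩ z₁) (Filter.inter_mem (Filter.inter_mem hy hX) hz₁)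
    obtain ⟨e, ⟨h2, h3⟩, h4⟩ := U.nonempty_of_mem (Filter.inter_mem h1 hAU)
    have h5 : (f e : Set ℕ) ⊆ X := fun i hi => (h3 hi).1.2
    have h6 : (f e : Set ℕ) ⊆ z₁ := fun i hi => (h3 hi).2
    obtain ⟨h8, h9, h10⟩ := ht e h2 h5
    have h11 : Aᶜ ∈ C (t e) := hyA (t e) h8 (fun i hi => (h3 (Finset.mem_coe.2 (h9.1 hi))).1.1)
    refine h4 ((hA e).2 ⟨h2, h5, hlt e h2 h5 h6, fun h12 => ?_⟩)
    obtain ⟨i, _, hi1, hi2⟩ := hR.inter _ h8 _ h11 _ h12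
    exact hi1 hi2.1.1

end Pool.Agent.BLA
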