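import Pool.Agent.BLA.Decomp
import Pool.Agent.BLA.NoLeast
import Pool.Agent.BLA.Term

/-!
# Main theorem: named ultrafilters are in the Gitik-Blass family of `p`

`sees_all`: induction on `τ`, for all `U`. `leaf`: `f e = ∅`. `node T`: `U` is nonprincipal (a
principal ultrafilter is an image of `p` under a constant map). If no `f` is a least sky:
`sees_node_of_no_least`. Otherwise `decomp` gives `W`. If `{m | GP p (W m)} ∈ p` then `GP p U`: `U`
is the image under `fun k => (Nat.unpair k).2` of the sum over `p` of the ultrafilters `W' m = W m`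
(if `GP p (W m)`) and `W' m = p` (otherwise); the sum exists (e.g.
`Ultrafilter.bind` with `(W' m).map (Nat.pair m)`). So for `p`-many `m`, `W m` is named and not in
`GP`; by the IH, `g m` witnesses `Sees p (W m) (T m)`. Put `F e = insert (f e) (g (f e) e)`; for
`z ∈ p` and `p`-many `m ∈ z`: `{e | f e = m} ∈ W m` and
`{e | g m e ∈ Br (T m) ∧ g m e ⊆ z ∩ {i | m < i}} ∈ W m`.
`Named.gp`: `sees_all` and `exists_not_sees`.
-/

namespace Pool.Agent.BLA

open Filter Set

/-- If `U` is the limit along `p` of ultrafilters `W m`, `p`-many of which are in `GP p`, then `U` is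
in `GP p`. -/
theorem gp_of_many_limit {p U : Ultrafilter ℕ} {W : ℕ → Ultrafilter ℕ}
    (hW : ∀ A, A ∈ U ↔ {m | A ∈ W m} ∈ p) (h : {m | GP p (W m)} ∈ p) : GP p U := by
  classical
  set W' : ℕ → Ultrafilter ℕ := fun m => if GP p (W m) then W m else p with hW'def
  have hW' : ∀ m, GP p (W' m) := by
    intro m
    by_cases hm : GP p (W m)
    · simpa [hW'def, hm] using hm
    · simpa [hW'def, hm] using (GP.base : GP p p)
  set w : Ultrafilter ℕ := p.bind (fun m => (W' m).map (Nat.pair m)) with hwdef
  have hsum : IsSum p W' w := fun A => Iff.rfl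
  have hgp : GP p (w.map (fun k => (Nat.unpair k).2)) :=
    GP.image _ _ (GP.sum p W' w GP.base hW' hsum)
  have hUw : U = w.map (fun k => (Nat.unpair k).2) := by
    ext A
    rw [hW, Ultrafilter.mem_map, hsum]
    constructor
    · intro hA
      filter_upwards [hA, h] with m hm hm'
      have hm1 : A ∈ W m := hm
      have hm2 : GP p (W m) := hm'
      show {k | Nat.pair m k ∈ (fun k => (Nat.unpair k).2) ⁻¹' A} ∈ W' m
      have : {k | Nat.pair m k ∈ (fun k => (Nat.unpair k).2) ⁻¹' A} = A := by
        ext k; simp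
      rw [this]
      simpa [hW'def, hm2] using hm1
    · intro hA
      filter_upwards [hA, h] with m hm hm'
      have hm2 : GP p (W m) := hm'
      have hm1 : {k | Nat.pair m k ∈ (fun k => (Nat.unpair k).2) ⁻¹' A} ∈ W' m := hm
      have : {k | Nat.pair m k ∈ (fun k => (Nat.unpair k).2) ⁻¹' A} = A := by
        ext k; simp
      rw [this] at hm1
      show A ∈ W m
      simpa [hW'def, hm2] using hm1
  rw [hUw]
  exact hgp

theorem Ioi_mem_of_np {p : Ultrafilter ℕ} (hp : ∀ n : ℕ, ({n} : Set ℕ) ∉ p) (m : ℕ) :
    {i : ℕ | m < i} ∈ p := by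
  by_contra hcon
  have hc : {i : ℕ | m < i}ᶜ ∈ p := Ultrafilter.compl_mem_iff_notMem.mpr hcon
  have hfin : ({i : ℕ | m < i}ᶜ).Finite := by
    refine (Set.finite_Iic m).subset ?_
    intro i hi
    simpa using hi
  obtain ⟨n, -, hn⟩ := Ultrafilter.eq_pure_of_finite_mem hfin hc
  exact hp n (by rw [hn]; exact Ultrafilter.mem_pure.mpr rfl)

theorem sees_all {p : Ultrafilter ℕ} (hp : Selective p) (τ : PTree) :
    ∀ U : Ultrafilter ℕ, Named p U → ¬ GP p U → Sees p U τ := by
  induction τ with
  | leaf =>
    intro U _ _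
    refine ⟨fun _ => ∅, fun z _ => ?_⟩
    have : {e : ℕ | (∅ : Finset ℕ) ∈ Br PTree.leaf ∧ ((∅ : Finset ℕ) : Set ℕ) ⊆ z} = univ := by
      ext e
      simp [Br]
    rw [this]
    exact Filter.univ_mem
  | node T ih =>
    intro U hU hG
    have hn : ∀ n : ℕ, ({n} : Set ℕ) ∉ U := by
      intro n hn
      apply hG
      have hUn : U = p.map (fun _ => n) := by
        ext A
        rw [Ultrafilter.mem_map]
        by_cases hA : n ∈ A
        · have h1 : A ∈ U := Filter.mem_of_superset hn (by simpa using hA)
          have h2 : (fun _ : ℕ => n) ⁻¹' A = univ := by ext; simpa using hA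
          rw [h2]
          exact ⟨fun _ => Filter.univ_mem, fun _ => h1⟩
        · have h2 : (fun _ : ℕ => n) ⁻¹' A = ∅ := by ext; simpa using hA
          rw [h2]
          constructor
          · intro h1
            exfalso
            have h3 : ({n} : Set ℕ) ∩ A ∈ U := Filter.inter_mem hn h1
            have h4 : ({n} : Set ℕ) ∩ A = ∅ := by
              ext i
              simp only [mem_inter_iff, mem_singleton_iff, mem_empty_iff_false, iff_false, not_and]
              rintro rfl
              exact hA
            rw [h4] at h3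
            exact U.empty_notMem h3
          · intro h1
            exact absurd h1 p.empty_notMem
      rw [hUn]
      exact GP.image _ _ GP.base
    by_cases hL : ∀ f, ¬ LeastSky p U f
    · exact sees_node_of_no_least hp hU hn hL T (fun m => ih m U hU hG)
    · push Not at hL
      obtain ⟨f, hf⟩ := hL
      obtain ⟨W, hW1, hW2⟩ := decomp hp hU hn hf
      by_cases hG' : {m | GP p (W m)} ∈ p
      · exact absurd (gp_of_many_limit hW2 hG') hG
      · have hG'' : {m | GP p (W m)}ᶜ ∈ p := Ultrafilter.compl_mem_iff_notMem.mpr hG'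
        have hg : ∀ m, ∃ g : ℕ → Finset ℕ, Named p (W m) → ¬ GP p (W m) →
            ∀ z ∈ p, {e | g e ∈ Br (T m) ∧ (g e : Set ℕ) ⊆ z} ∈ W m := by
          intro m
          by_cases h1 : Named p (W m) ∧ ¬ GP p (W m)
          · obtain ⟨g, hg⟩ := ih m (W m) h1.1 h1.2
            exact ⟨g, fun _ _ => hg⟩
          · exact ⟨fun _ => ∅, fun h2 h3 => absurd ⟨h2, h3⟩ h1⟩
        choose g hg using hg
        refine ⟨fun e => insert (f e) (g (f e) e), fun z hz => ?_⟩
        rw [hW2]
        filter_upwards [hW1, hG'', hz] with m hm1 hm2 hmz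
        have hmi : {i | m < i} ∈ p := Ioi_mem_of_np hp.1 m
        have hm1' : Named p (W m) ∧ {e | f e = m} ∈ W m := hm1
        have hm2' : ¬ GP p (W m) := hm2
        have hz2 := hg m hm1'.1 hm2' (z ∩ {i | m < i}) (Filter.inter_mem hz hmi)
        show {e | insert (f e) (g (f e) e) ∈ Br (.node T) ∧
          ((insert (f e) (g (f e) e) : Finset ℕ) : Set ℕ) ⊆ z} ∈ W m
        filter_upwards [hm1'.2, hz2] with e he1 he2
        have he1' : f e = m := he1
        obtain ⟨h3, h4⟩ := he2
        show insert (f e) (g (f e) e) ∈ Br (.node T) ∧ ((insert (f e) (g (f e) e) : Finset ℕ) : Set ℕ) ⊆ z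
        rw [he1']
        refine ⟨⟨m, g m e, h3, fun i hi => (h4 (by exact_mod_cast hi)).2, rfl⟩, ?_⟩
        intro i hi
        rw [Finset.coe_insert] at hi
        rcases hi with rfl | hi
        · exact hmz
        · exact (h4 hi).1

theorem Named.gp {p U : Ultrafilter ℕ} (hp : Selective p) (hU : Named p U) : GP p U := by
  by_contra hG
  obtain ⟨τ, hτ⟩ := exists_not_sees hp hU
  exact hτ (sees_all hp τ U hU hG)

end Pool.Agent.BLA
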