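import Pool.Agent.BLA.Diag

/-!
# Iterated limits of clopen families have closed names

`upClosed`: induction.
`namedFam`: `clopen k D`: `N y A := A ∈ D`. `lim D`: with names `N m` of `D m` put
`N y A := ∀ m ∈ y, N m {i ∈ y | m < i} A`; for `closed` and `m ∈ y` use the hypothesis for
`max k (m + 1)`; if `{m | A ∈ D m} ∈ p` choose `y m ∈ p` with `N m (y m) A` and diagonalise
(`Selective.diag`).
`dual`: `clopen`: clopen; `lim`: `{A | Aᶜ ∉ lim D} = lim (fun m => {A | Aᶜ ∉ D m})`.
-/

namespace Pool.Agent.BLA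

open Filter Set

theorem WRed.upClosed {p : Ultrafilter ℕ} {D : Set (Set ℕ)} (h : WRed p D) :
    ∀ A ∈ D, ∀ B, A ⊆ B → B ∈ D := by
  induction h with
  | clopen k D hD => exact fun A hA B hAB => hD A B hA fun i _ hi => hAB hi
  | lim D _ ih =>
    intro A hA B hAB
    rw [mem_ofPred_eq] at hA ⊢
    exact mem_of_superset hA fun m hm => ih m A hm B hAB

theorem WRed.namedFam {p : Ultrafilter ℕ} (hp : Selective p) {D : Set (Set ℕ)} (h : WRed p D) :
    NamedFam p D := by
  induction h with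
  | clopen k D hD =>
    refine ⟨fun _ A => A ∈ D, ⟨fun _ _ _ h _ => h, fun _ A B h hAB => hD A B h fun i _ hi => hAB hi,
      fun y A _ h => ?_⟩, fun A => ?_⟩
    · obtain ⟨y', A', -, h2, h3⟩ := h k
      exact hD A' A h3 fun i hi h => (h2 i hi).1 h
    · exact ⟨fun h => ⟨Set.univ, univ_mem, h⟩, fun ⟨_, _, h⟩ => h⟩
  | lim D _ ih =>
    choose N hN hND using ih
    refine ⟨fun y A => ∀ m ∈ y, N m {i | i ∈ y ∧ m < i} A, ⟨?_, ?_, ?_⟩, fun A => ⟨?_, ?_⟩⟩
    · intro y y' A h hy m hm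
      exact (hN m).mono _ _ A (h m (hy hm)) fun i hi => ⟨hy hi.1, hi.2⟩
    · intro y A B h hAB m hm
      exact (hN m).up _ A B (h m hm) hAB
    · intro y A hy h m hm
      apply (hN m).closed
      · have h1 : {i | i ∈ y ∧ m < i} = y \ Set.Iic m := by
          ext i
          simp
        rw [h1]
        exact hy.sdiff (Set.finite_Iic m)
      · intro k
        obtain ⟨y', A', h1, h2, h3⟩ := h (max k (m + 1))
        have hm' : m ∈ y' := (h1 m (lt_of_lt_of_le (Nat.lt_succ_self m) (le_max_right _ _))).2 hm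
        refine ⟨{i | i ∈ y' ∧ m < i}, A', ?_, ?_, h3 m hm'⟩
        · intro i hi
          have := h1 i (lt_of_lt_of_le hi (le_max_left _ _))
          simp only [mem_ofPred_eq, this]
        · exact fun i hi => h2 i (lt_of_lt_of_le hi (le_max_left _ _))
    · intro hA
      rw [mem_ofPred_eq] at hA
      classical
      have hex : ∀ m, ∃ Y ∈ p, A ∈ D m → N m Y A := by
        intro m
        by_cases hm : A ∈ D m
        · obtain ⟨Y, hY, hNY⟩ := (hND m A).1 hm
          exact ⟨Y, hY, fun _ => hNY⟩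
        · exact ⟨Set.univ, univ_mem, fun h => absurd h hm⟩
      choose Y hYp hY using hex
      obtain ⟨x, hx, hxY⟩ := hp.diag Y hYp
      refine ⟨x ∩ {m | A ∈ D m}, inter_mem hx hA, ?_⟩
      intro m hm
      refine (hN m).mono _ _ A (hY m hm.2) ?_
      intro i hi
      exact hxY m hm.1 i hi.1.1 hi.2
    · rintro ⟨y, hy, h⟩
      rw [mem_ofPred_eq]
      refine mem_of_superset hy fun m hm => ?_
      rw [mem_ofPred_eq, hND m A]
      exact ⟨{i | i ∈ y ∧ m < i}, inter_mem hy (hp.gt_mem m), h m hm⟩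

theorem WRed.dual {p : Ultrafilter ℕ} {D : Set (Set ℕ)} (h : WRed p D) :
    WRed p {A | Aᶜ ∉ D} := by
  induction h with
  | clopen k D hD =>
    refine WRed.clopen k _ fun A B hA hAB hB => hA ?_
    exact hD _ _ hB fun i hi h h' => h (hAB i hi h')
  | lim D _ ih =>
    have h1 : {A : Set ℕ | Aᶜ ∉ {A | {m | A ∈ D m} ∈ p}} =
        {A | {m | A ∈ {A | Aᶜ ∉ D m}} ∈ p} := by
      ext A
      simp only [mem_ofPred_eq]
      rw [← Ultrafilter.compl_mem_iff_notMem]
      rfl
    rw [h1]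
    exact WRed.lim (fun m => {A | Aᶜ ∉ D m}) ih

end Pool.Agent.BLA
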