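import Pool.Agent.BLA.DecQ
import Pool.Agent.BLA.Compact
import Pool.Agent.BLA.WNames

/-!
# The pieces of the decomposition are named

With `E = {A | (A ∩ B) ∪ X ∈ D}`: `c ∈ W ↔ cᶜ ∉ W ↔ ∃ A ∈ U, T c A ∉ D`, where
`T c A = ((((L ∪ (cᶜ ∩ P)) ∩ M) ∪ (A ∩ M')) ∩ B) ∪ X`, `L = {f ≤ j}`, `P = {f = m}`, `M = {f ≤ m}`,
`M' = {m < f}`. `T c A ∉ D ↔ (T c A)ᶜ ∈ D* = {A | Aᶜ ∉ D}`, and `D*` is `WRed` (`WRed.dual`), so
it has a name `N₂` (`WRed.namedFam`). Let `N₁` be the name of `U`. The name of `W` is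
`N y c := ∃ A, N₁ y A ∧ N₂ y (T c A)ᶜ`. `mono`, `up` are clear (`T` is antitone in `c`) and for the
intersection of witnesses use `y₁ ∩ y₂`. `closed`: choose `y k, c k, A k` for every `k`; let `A` be
the limit of the `A k` along `p` (`agree_lim`); `T c A` is a local operation (whether
`e ∈ T c A` depends only on `e ∈ c`, `e ∈ A`), so the closedness of `N₁` and `N₂` gives
`N₁ y A` and `N₂ y (T c A)ᶜ`.
-/

namespace Pool.Agent.BLA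

open Filter Set

/-- the set in the definition of the name of a piece -/
def pieceT (f : ℕ → ℕ) (B X : Set ℕ) (j m : ℕ) (c A : Set ℕ) : Set ℕ :=
  (((({e | f e ≤ j} ∪ (cᶜ ∩ {e | f e = m})) ∩ {e | f e ≤ m}) ∪ (A ∩ {e | m < f e})) ∩ B) ∪ X

theorem mem_pieceT {f : ℕ → ℕ} {B X : Set ℕ} {j m : ℕ} {c A : Set ℕ} {e : ℕ} :
    e ∈ pieceT f B X j m c A ↔
      ((((f e ≤ j ∨ (e ∉ c ∧ f e = m)) ∧ f e ≤ m) ∨ (e ∈ A ∧ m < f e)) ∧ e ∈ B) ∨ e ∈ X :=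
  Iff.rfl

theorem named_piece {p U W : Ultrafilter ℕ} (hp : Selective p) (hU : Named p U) (f : ℕ → ℕ)
    {D : Set (Set ℕ)} (hD : WRed p D) (B X : Set ℕ) (j m : ℕ)
    (hW : ∀ c : Set ℕ, c ∈ W ↔
      {e | f e ≤ j} ∪ (c ∩ {e | f e = m}) ∈ Q U f (fun _ => {A | (A ∩ B) ∪ X ∈ D}) m) :
    Named p W := by
  obtain ⟨N₁, hN₁, h₁⟩ := hU
  obtain ⟨N₂, hN₂, h₂⟩ := hD.dual.namedFam hp
  refine ⟨fun y c => ∃ A, N₁ y A ∧ N₂ y (pieceT f B X j m c A)ᶜ, ⟨?_, ?_, ?_⟩, ?_⟩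
  · rintro y y' c ⟨A, hA, hA'⟩ hy
    exact ⟨A, hN₁.mono _ _ _ hA hy, hN₂.mono _ _ _ hA' hy⟩
  · rintro y c c' ⟨A, hA, hA'⟩ hc
    refine ⟨A, hA, hN₂.up _ _ _ hA' ?_⟩
    rw [compl_subset_compl]
    intro e he
    rw [mem_pieceT] at he ⊢
    have : e ∉ c' → e ∉ c := fun h h' => h (hc h')
    tauto
  · intro y c hy hk
    choose y' c' hy' hc' hN using hk
    choose A hA1 hA2 using hN
    have hlim := agree_lim p A
    set L : Set ℕ := {e | {m | e ∈ A m} ∈ p} with hL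
    have hex : ∀ k, ∃ n, k ≤ n ∧ Agree k (A n) L := by
      intro k
      obtain ⟨n, hn⟩ := p.nonempty_of_mem (inter_mem (hp.gt_mem k) (hlim k))
      exact ⟨n, le_of_lt hn.1, hn.2⟩
    refine ⟨L, hN₁.closed y L hy ?_, hN₂.closed y _ hy ?_⟩
    · intro k
      obtain ⟨n, hn, hag⟩ := hex k
      exact ⟨y' n, A n, fun i hi => hy' n i (by omega), hag, hA1 n⟩
    · intro k
      obtain ⟨n, hn, hag⟩ := hex k
      refine ⟨y' n, _, fun i hi => hy' n i (by omega), ?_, hA2 n⟩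
      intro i hi
      have e1 := hc' n i (by omega)
      have e2 := hag i hi
      rw [mem_compl_iff, mem_compl_iff, mem_pieceT, mem_pieceT, e1, e2]
  · intro c
    have hQ : cᶜ ∈ W ↔ ∀ A ∈ U, pieceT f B X j m c A ∈ D := hW cᶜ
    have hc : c ∈ W ↔ ∃ A ∈ U, pieceT f B X j m c A ∉ D := by
      rw [← not_iff_not]
      push Not
      rw [← hQ, Ultrafilter.compl_mem_iff_notMem]
    rw [hc]
    constructor
    · rintro ⟨A, hA, hAD⟩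
      obtain ⟨y₁, hy₁, hNy₁⟩ := (h₁ A).mp hA
      have hmem : (pieceT f B X j m c A)ᶜ ∈ {A | Aᶜ ∉ D} := by
        show (pieceT f B X j m c A)ᶜᶜ ∉ D
        rwa [compl_compl]
      obtain ⟨y₂, hy₂, hNy₂⟩ := (h₂ _).mp hmem
      exact ⟨y₁ ∩ y₂, inter_mem hy₁ hy₂, A, hN₁.mono _ _ _ hNy₁ inter_subset_left,
        hN₂.mono _ _ _ hNy₂ inter_subset_right⟩
    · rintro ⟨y, hy, A, hA1, hA2⟩
      refine ⟨A, (h₁ A).mpr ⟨y, hy, hA1⟩, ?_⟩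
      have hmem : (pieceT f B X j m c A)ᶜ ∈ {A | Aᶜ ∉ D} := (h₂ _).mpr ⟨y, hy, hA2⟩
      have hmem' : (pieceT f B X j m c A)ᶜᶜ ∉ D := hmem
      rwa [compl_compl] at hmem'

end Pool.Agent.BLA
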