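import Pool.Agent.BLA.Diag

/-!
# Decomposition over the least sky, first part

Setting: `LeastSky p U f`, up-closed families `E m` with `A ∈ U ↔ {m | A ∈ E m} ∈ p`.
`Q U f E m` is the set of `C` such that for all `A ∈ U`, the set which is `C` on `{e | f e ≤ m}` and
`A` on `{e | m < f e}` belongs to `E m`. It is up-closed, and `C ∈ Q m` depends only on
`C ∩ {e | f e ≤ m}`.

`mem_Q`: let `A ∈ U` and suppose that `C = {m | A ∉ Q m} ∈ p`. For `m ∈ C` choose `A m ∈ U` such that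
`A` on `{f ≤ m}`, `A m` on `{m < f}` is not in `E m`. `LeastSky` gives `A' ∈ U` and `j` with
`e ∈ A'`, `j m < f e` implies `e ∈ A m`. Take `x ∈ p` with `j m < n` for `m < n` in `x` (`diag`).
`A'' = A ∩ A' ∩ {e | f e ∈ x} ∈ U` (as `U.map f = p`) is contained in the set of `m`, for all
`m ∈ x ∩ C`: so it is not in `E m`, for `p`-many `m`; contradiction.

`caseI`: let `X' ∉ U` with `{m | X' ∈ Q m} ∈ p`. For these `m`, `A ∈ U` implies that the set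
`M m A` (`X'` on `{f ≤ m}`, `A` on `{m < f}`) is in `E m`. Suppose that for `p`-many `m` there is
`A m ∉ U` with `M m (A m) ∈ E m`. `LeastSky` for the complements gives `A' ∈ U` and `j` with:
`e ∈ A'`, `j m < f e` implies `e ∉ A m`. Take `x ∈ p` as before. Then
`A'' = A' ∩ {e | f e ∈ x} ∖ X' ∈ U` is disjoint from `M m (A m)` for all `m ∈ x` in question, so
`A''ᶜ ∈ E m` for `p`-many `m`, so `A''ᶜ ∈ U`, a contradiction.
-/

namespace Pool.Agent.BLA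

open Filter Set

/-- The families `Q m`, see the header. -/
def Q (U : Ultrafilter ℕ) (f : ℕ → ℕ) (E : ℕ → Set (Set ℕ)) (m : ℕ) : Set (Set ℕ) :=
  {C | ∀ A ∈ U, (C ∩ {e | f e ≤ m}) ∪ (A ∩ {e | m < f e}) ∈ E m}

theorem Q_up {U : Ultrafilter ℕ} {f : ℕ → ℕ} {E : ℕ → Set (Set ℕ)} {m : ℕ}
    (hE : ∀ A ∈ E m, ∀ B, A ⊆ B → B ∈ E m) {C C' : Set ℕ} (hC : C ∈ Q U f E m)
    (h : ∀ e ∈ C, f e ≤ m → e ∈ C') : C' ∈ Q U f E m := by
  intro A hA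
  refine hE _ (hC A hA) _ ?_
  rintro e (⟨he, hm⟩ | ⟨he, hm⟩)
  · exact Or.inl ⟨h e he hm, hm⟩
  · exact Or.inr ⟨he, hm⟩

theorem mem_Q {p U : Ultrafilter ℕ} (hp : Selective p) {f : ℕ → ℕ} (hf : LeastSky p U f)
    {E : ℕ → Set (Set ℕ)} (hE : ∀ m, ∀ A ∈ E m, ∀ B, A ⊆ B → B ∈ E m)
    (hU : ∀ A, A ∈ U ↔ {m | A ∈ E m} ∈ p) {A : Set ℕ} (hA : A ∈ U) :
    {m | A ∈ Q U f E m} ∈ p := by
  by_contra hcon
  have hcon' : {m | A ∈ Q U f E m}ᶜ ∈ p := Ultrafilter.compl_mem_iff_notMem.2 hcon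
  have hch : ∀ m, ∃ B ∈ U, A ∉ Q U f E m →
      (A ∩ {e | f e ≤ m}) ∪ (B ∩ {e | m < f e}) ∉ E m := by
    intro m
    by_cases h : A ∈ Q U f E m
    · exact ⟨univ, Filter.univ_mem, fun h' => absurd h h'⟩
    · have h2 := h
      simp only [Q, mem_setOf_eq, not_forall] at h2
      obtain ⟨B, hB, hB'⟩ := h2
      exact ⟨B, hB, fun _ => hB'⟩
  choose B hB hB' using hch
  obtain ⟨A', hA', j, hj⟩ := hf.2 B hB
  obtain ⟨x, hx, hxj⟩ := hp.diag (fun k => {n | j k < n}) (fun k => hp.gt_mem (j k))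
  have hfx : {e | f e ∈ x} ∈ U := by
    have h0 : x ∈ U.map f := by rw [hf.1]; exact hx
    exact h0
  have hA'' : A ∩ A' ∩ {e | f e ∈ x} ∈ U := inter_mem (inter_mem hA hA') hfx
  have h1 : {m | A ∩ A' ∩ {e | f e ∈ x} ∈ E m} ∈ p := (hU _).1 hA''
  obtain ⟨m, ⟨hm1, hm2⟩, hm3⟩ := p.nonempty_of_mem (inter_mem (inter_mem h1 hx) hcon')
  refine hB' m hm3 (hE m _ hm1 _ ?_)
  rintro e ⟨⟨he1, he2⟩, he3⟩
  rcases le_or_gt (f e) m with h | h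
  · exact Or.inl ⟨he1, h⟩
  · exact Or.inr ⟨hj m e he2 (hxj m hm2 (f e) he3 h), h⟩

theorem caseI {p U : Ultrafilter ℕ} (hp : Selective p) {f : ℕ → ℕ} (hf : LeastSky p U f)
    {E : ℕ → Set (Set ℕ)} (hE : ∀ m, ∀ A ∈ E m, ∀ B, A ⊆ B → B ∈ E m)
    (hU : ∀ A, A ∈ U ↔ {m | A ∈ E m} ∈ p) {X : Set ℕ} (hX : X ∉ U)
    (hXQ : {m | X ∈ Q U f E m} ∈ p) :
    ∃ m, ∀ A, (X ∩ {e | f e ≤ m}) ∪ (A ∩ {e | m < f e}) ∈ E m ↔ A ∈ U := by
  by_contra hcon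
  have hch : ∀ m, ∃ B, B ∉ U ∧ (X ∈ Q U f E m →
      (X ∩ {e | f e ≤ m}) ∪ (B ∩ {e | m < f e}) ∈ E m) := by
    intro m
    by_cases h : X ∈ Q U f E m
    · by_contra h3
      apply hcon
      refine ⟨m, fun A => ⟨fun hA => ?_, fun hA => h A hA⟩⟩
      by_contra hA2
      exact h3 ⟨A, hA2, fun _ => hA⟩
    · exact ⟨∅, U.empty_notMem, fun h' => absurd h' h⟩
  choose B hB hB' using hch
  obtain ⟨A', hA', j, hj⟩ := hf.2 (fun m => (B m)ᶜ)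
    (fun m => Ultrafilter.compl_mem_iff_notMem.2 (hB m))
  obtain ⟨x, hx, hxj⟩ := hp.diag (fun k => {n | j k < n}) (fun k => hp.gt_mem (j k))
  have hfx : {e | f e ∈ x} ∈ U := by
    have h0 : x ∈ U.map f := by rw [hf.1]; exact hx
    exact h0
  have hA'' : A' ∩ {e | f e ∈ x} ∩ Xᶜ ∈ U :=
    inter_mem (inter_mem hA' hfx) (Ultrafilter.compl_mem_iff_notMem.2 hX)
  have h1 : {m | (A' ∩ {e | f e ∈ x} ∩ Xᶜ)ᶜ ∈ E m} ∈ p := by
    filter_upwards [hx, hXQ] with m hm hmQ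
    refine hE m _ (hB' m hmQ) _ ?_
    rintro e he ⟨⟨he1, he2⟩, he3⟩
    rcases he with ⟨h4, -⟩ | ⟨h4, h5⟩
    · exact he3 h4
    · exact hj m e he1 (hxj m hm (f e) he2 h5) h4
  exact Ultrafilter.compl_mem_iff_notMem.1 ((hU _).2 h1) hA''

end Pool.Agent.BLA
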