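import Pool.Agent.BLA.DecQ

/-!
# Decomposition over the least sky, second part

Setting as in `DecQ`, and (Case II) every `X` with `{m | X ∈ Q m} ∈ p` belongs to `U` (`hII`); with
`mem_Q`: `A ∈ U ↔ {m | A ∈ Q m} ∈ p`. For a set `c` write `S j m c = {e | f e ≤ j} ∪ (c ∩ {f = m})`.

(a) `c ∉ U` implies `∀ j, {m | S j m c ∈ Q m} ∉ p`: otherwise `X = {f ≤ j} ∪ c ∉ U` contains
`S j m c`, so `X ∈ Q m` for `p`-many `m`, against `hII`.
(b) `c ∈ U` implies `∃ j, {m | S j m c ∈ Q m} ∈ p`: otherwise `diag` gives `x ∈ p` such that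
`S k n c ∉ Q n` for all `k < n` in `x`. `X = c ∩ {e | f e ∈ x} ∈ U`, and for `n ∈ x`, not the least
element, with `k` the predecessor of `n` in `x`: `X ∩ {f ≤ n} ⊆ S k n c`, so `X ∉ Q n` (`Q_up`),
against `mem_Q`.
(c) there is `j` such that for all `c ∈ U`, `{m | S j m c ∈ Q m} ∈ p`: otherwise choose for every `j`
a `c j ∈ U` with `{m | S j m (c j) ∈ Q m} ∉ p`; `LeastSky` gives `A' ∈ U` and `i` such that
`e ∈ A'`, `i j < f e` implies `e ∈ c j`. By (b) for `A'` there is `j` with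
`{m | S j m A' ∈ Q m} ∈ p`; for `m > i j`, `S j m A' ⊆ S j m (c j)`, a contradiction.
Fix this `j`. So `c ∈ U ↔ {m | S j m c ∈ Q m} ∈ p` for all `c`, and hence also for families
`c m` (apply it to `{e | e ∈ c (f e)}`). Let `W' m = {c | S j m c ∈ Q m}` (up-closed). For `p`-many
`m`, `W' m` is an ultrafilter: `univ ∈ W' m`, `∅ ∉ W' m`; closed under intersections: otherwise
choose `c m, c' m ∈ W' m` with `c m ∩ c' m ∉ W' m` for `p`-many `m`, and glue: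
`c = {e | e ∈ c (f e)} ∈ U`, `c' ∈ U`, so `c ∩ c' ∈ U`, contradiction; `c ∈ W' m` or `cᶜ ∈ W' m`:
similarly. (Use `Ultrafilter.ofComplNotMemIff` or similar; for the other `m` take any
ultrafilter, e.g. `p`.)
-/

namespace Pool.Agent.BLA

open Filter Set

/-- The sets considered in Case II. -/
def SS (f : ℕ → ℕ) (j m : ℕ) (c : Set ℕ) : Set ℕ := {e | f e ≤ j} ∪ (c ∩ {e | f e = m})

theorem caseII_a {p U : Ultrafilter ℕ} (hp : Selective p) {f : ℕ → ℕ} (hf : LeastSky p U f)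
    {E : ℕ → Set (Set ℕ)} (hE : ∀ m, ∀ A ∈ E m, ∀ B, A ⊆ B → B ∈ E m)
    (hII : ∀ X : Set ℕ, {m | X ∈ Q U f E m} ∈ p → X ∈ U) {c : Set ℕ} (hc : c ∉ U) (j : ℕ) :
    {m | SS f j m c ∈ Q U f E m} ∉ p := by
  intro h
  have h1 : {e | f e ≤ j} ∪ c ∈ U := by
    apply hII
    filter_upwards [h] with m hm
    refine Q_up (hE m) hm ?_
    rintro e (he | he) -
    · exact Or.inl he
    · exact Or.inr he.1
  rcases Ultrafilter.union_mem_iff.1 h1 with h2 | h2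
  · have h3 : {n | n ≤ j} ∈ U.map f := h2
    rw [hf.1] at h3
    have h4 := inter_mem h3 (hp.gt_mem j)
    refine p.empty_notMem (mem_of_superset h4 ?_)
    rintro n ⟨h5, h6⟩
    simp only [mem_setOf_eq] at h5 h6
    omega
  · exact hc h2

theorem caseII_b {p U : Ultrafilter ℕ} (hp : Selective p) {f : ℕ → ℕ} (hf : LeastSky p U f)
    {E : ℕ → Set (Set ℕ)} (hE : ∀ m, ∀ A ∈ E m, ∀ B, A ⊆ B → B ∈ E m)
    (hU : ∀ A, A ∈ U ↔ {m | A ∈ E m} ∈ p) {c : Set ℕ} (hc : c ∈ U) :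
    ∃ j, {m | SS f j m c ∈ Q U f E m} ∈ p := by
  by_contra hcon
  push Not at hcon
  obtain ⟨x, hx, hxd⟩ := hp.diag (fun k => {m | SS f k m c ∈ Q U f E m}ᶜ)
    (fun k => Ultrafilter.compl_mem_iff_notMem.2 (hcon k))
  have hfx : {e | f e ∈ x} ∈ U := by
    have h0 : x ∈ U.map f := by rw [hf.1]; exact hx
    exact h0
  have hX : c ∩ {e | f e ∈ x} ∈ U := inter_mem hc hfx
  have h1 := mem_Q hp hf hE hU hX
  obtain ⟨m₀, hm₀⟩ := p.nonempty_of_mem hx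
  obtain ⟨n, ⟨hn1, hn2⟩, hn3⟩ :=
    p.nonempty_of_mem (inter_mem (inter_mem h1 hx) (hp.gt_mem m₀))
  -- the predecessor of `n` in `x`
  have hfin : {k | k ∈ x ∧ k < n}.Finite := (finite_lt_nat n).subset fun k hk => hk.2
  have hne : {k | k ∈ x ∧ k < n}.Nonempty := ⟨m₀, hm₀, hn3⟩
  obtain ⟨k, hk, hkmax⟩ := hfin.exists_maximal hne
  have hkmax' : ∀ i ∈ x, i < n → i ≤ k := by
    intro i hi hin
    rcases le_total i k with h | h
    · exact h
    · exact hkmax ⟨hi, hin⟩ h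
  refine hxd k hk.1 n hn2 hk.2 (Q_up (hE n) hn1 ?_)
  rintro e ⟨he1, he2⟩ he3
  rcases he3.lt_or_eq with h | h
  · exact Or.inl (hkmax' _ he2 h)
  · exact Or.inr ⟨he1, h⟩

theorem caseII_c {p U : Ultrafilter ℕ} (hp : Selective p) {f : ℕ → ℕ} (hf : LeastSky p U f)
    {E : ℕ → Set (Set ℕ)} (hE : ∀ m, ∀ A ∈ E m, ∀ B, A ⊆ B → B ∈ E m)
    (hU : ∀ A, A ∈ U ↔ {m | A ∈ E m} ∈ p) :
    ∃ j, ∀ c ∈ U, {m | SS f j m c ∈ Q U f E m} ∈ p := by
  by_contra hcon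
  push Not at hcon
  choose c hc hcQ using hcon
  obtain ⟨A', hA', i, hi⟩ := hf.2 c hc
  obtain ⟨j, hj⟩ := caseII_b hp hf hE hU hA'
  apply hcQ j
  filter_upwards [hj, hp.gt_mem (i j)] with m hm hm2
  refine Q_up (hE m) hm ?_
  rintro e (he | ⟨he1, he2⟩) -
  · exact Or.inl he
  · refine Or.inr ⟨hi j e he1 ?_, he2⟩
    simp only [mem_setOf_eq] at he2 hm2
    omega

theorem caseII_glue {p U : Ultrafilter ℕ} (hp : Selective p) {f : ℕ → ℕ} (hf : LeastSky p U f)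
    {E : ℕ → Set (Set ℕ)} (hE : ∀ m, ∀ A ∈ E m, ∀ B, A ⊆ B → B ∈ E m)
    (hU : ∀ A, A ∈ U ↔ {m | A ∈ E m} ∈ p)
    (hII : ∀ X : Set ℕ, {m | X ∈ Q U f E m} ∈ p → X ∈ U) :
    ∃ j, ∀ c : ℕ → Set ℕ, {e | e ∈ c (f e)} ∈ U ↔ {m | SS f j m (c m) ∈ Q U f E m} ∈ p := by
  obtain ⟨j, hj⟩ := caseII_c hp hf hE hU
  refine ⟨j, fun c => ?_⟩
  have h1 : ∀ m, SS f j m {e | e ∈ c (f e)} = SS f j m (c m) := by
    intro m
    ext e
    simp only [SS, mem_union, mem_inter_iff, mem_setOf_eq]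
    constructor
    · rintro (h | ⟨h2, h3⟩)
      · exact Or.inl h
      · exact Or.inr ⟨h3 ▸ h2, h3⟩
    · rintro (h | ⟨h2, h3⟩)
      · exact Or.inl h
      · exact Or.inr ⟨h3.symm ▸ h2, h3⟩
  constructor
  · intro h
    have h2 := hj _ h
    simp only [h1] at h2
    exact h2
  · intro h
    by_contra h2
    apply caseII_a hp hf hE hII h2 j
    simp only [h1]
    exact h

theorem caseII {p U : Ultrafilter ℕ} (hp : Selective p) {f : ℕ → ℕ} (hf : LeastSky p U f)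
    {E : ℕ → Set (Set ℕ)} (hE : ∀ m, ∀ A ∈ E m, ∀ B, A ⊆ B → B ∈ E m)
    (hU : ∀ A, A ∈ U ↔ {m | A ∈ E m} ∈ p)
    (hII : ∀ X : Set ℕ, {m | X ∈ Q U f E m} ∈ p → X ∈ U) :
    ∃ (j : ℕ) (W : ℕ → Ultrafilter ℕ),
      {m | ∀ c : Set ℕ, c ∈ W m ↔ {e | f e ≤ j} ∪ (c ∩ {e | f e = m}) ∈ Q U f E m} ∈ p ∧
      ∀ A, A ∈ U ↔ {m | A ∈ W m} ∈ p := by
  classical
  obtain ⟨j, hj⟩ := caseII_glue hp hf hE hU hII
  -- upward closure of the families
  have hup : ∀ m (c c' : Set ℕ), SS f j m c ∈ Q U f E m → c ⊆ c' → SS f j m c' ∈ Q U f E m := by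
    intro m c c' h hcc
    refine Q_up (hE m) h ?_
    rintro e (he | ⟨he1, he2⟩) -
    · exact Or.inl he
    · exact Or.inr ⟨hcc he1, he2⟩
  -- `univ`
  have hu : {m | SS f j m univ ∈ Q U f E m} ∈ p := by
    refine (hj (fun _ => univ)).1 ?_
    exact mem_of_superset Filter.univ_mem fun e _ => mem_univ e
  -- exactly one of `c`, `cᶜ`
  have hc1 : {m | ∀ c : Set ℕ, SS f j m cᶜ ∉ Q U f E m ↔ SS f j m c ∈ Q U f E m} ∈ p := by
    by_contra hcon
    have hcon' := Ultrafilter.compl_mem_iff_notMem.2 hcon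
    have hch : ∀ m, ∃ c : Set ℕ,
        m ∈ {m | ∀ c : Set ℕ, SS f j m cᶜ ∉ Q U f E m ↔ SS f j m c ∈ Q U f E m}ᶜ →
        ¬ (SS f j m cᶜ ∉ Q U f E m ↔ SS f j m c ∈ Q U f E m) := by
      intro m
      by_cases h : ∀ c : Set ℕ, SS f j m cᶜ ∉ Q U f E m ↔ SS f j m c ∈ Q U f E m
      · exact ⟨∅, fun h' => absurd h h'⟩
      · have h2 := h
        simp only [not_forall] at h2
        obtain ⟨c, hc⟩ := h2
        exact ⟨c, fun _ => hc⟩
    choose c hc using hch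
    have h1 := hj c
    have h2 := hj (fun m => (c m)ᶜ)
    have h3 : {e | e ∈ (c (f e))ᶜ} = {e | e ∈ c (f e)}ᶜ := rfl
    rw [h3, Ultrafilter.compl_mem_iff_notMem] at h2
    by_cases h4 : {e | e ∈ c (f e)} ∈ U
    · have h5 := h1.1 h4
      have h6 : {m | SS f j m (c m)ᶜ ∈ Q U f E m} ∉ p := fun h => (h2.2 h) h4
      have h7 := Ultrafilter.compl_mem_iff_notMem.2 h6
      obtain ⟨m, ⟨hm1, hm2⟩, hm3⟩ := p.nonempty_of_mem (inter_mem (inter_mem h5 h7) hcon')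
      exact hc m hm3 ⟨fun _ => hm1, fun _ => hm2⟩
    · have h5 : {m | SS f j m (c m) ∈ Q U f E m} ∉ p := fun h => h4 (h1.2 h)
      have h6 := h2.1 h4
      have h7 := Ultrafilter.compl_mem_iff_notMem.2 h5
      obtain ⟨m, ⟨hm1, hm2⟩, hm3⟩ := p.nonempty_of_mem (inter_mem (inter_mem h6 h7) hcon')
      exact hc m hm3 ⟨fun h => absurd hm1 h, fun h => absurd h hm2⟩
  -- intersections
  have hi1 : {m | ∀ c c' : Set ℕ, SS f j m c ∈ Q U f E m → SS f j m c' ∈ Q U f E m →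
      SS f j m (c ∩ c') ∈ Q U f E m} ∈ p := by
    by_contra hcon
    have hcon' := Ultrafilter.compl_mem_iff_notMem.2 hcon
    have hch : ∀ m, ∃ c c' : Set ℕ,
        m ∈ {m | ∀ c c' : Set ℕ, SS f j m c ∈ Q U f E m → SS f j m c' ∈ Q U f E m →
          SS f j m (c ∩ c') ∈ Q U f E m}ᶜ →
        SS f j m c ∈ Q U f E m ∧ SS f j m c' ∈ Q U f E m ∧
          SS f j m (c ∩ c') ∉ Q U f E m := by
      intro m
      by_cases h : ∀ c c' : Set ℕ, SS f j m c ∈ Q U f E m → SS f j m c' ∈ Q U f E m →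
          SS f j m (c ∩ c') ∈ Q U f E m
      · exact ⟨∅, ∅, fun h' => absurd h h'⟩
      · have h2 := h
        simp only [not_forall] at h2
        obtain ⟨c, c', h3, h4, h5⟩ := h2
        exact ⟨c, c', fun _ => ⟨h3, h4, h5⟩⟩
    choose c c' hc using hch
    have h1 : {e | e ∈ c (f e)} ∈ U :=
      (hj c).2 (mem_of_superset hcon' fun m hm => (hc m hm).1)
    have h2 : {e | e ∈ c' (f e)} ∈ U :=
      (hj c').2 (mem_of_superset hcon' fun m hm => (hc m hm).2.1)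
    have h3 : {e | e ∈ (c (f e) ∩ c' (f e))} ∈ U := inter_mem h1 h2
    have h4 := (hj (fun m => c m ∩ c' m)).1 h3
    obtain ⟨m, hm1, hm2⟩ := p.nonempty_of_mem (inter_mem h4 hcon')
    exact (hc m hm2).2.2 hm1
  -- the good set of indices
  have hgood := inter_mem (inter_mem hu hc1) hi1
  have hW : ∀ m, ∃ W : Ultrafilter ℕ,
      m ∈ {m | SS f j m univ ∈ Q U f E m} ∩
        {m | ∀ c : Set ℕ, SS f j m cᶜ ∉ Q U f E m ↔ SS f j m c ∈ Q U f E m} ∩
        {m | ∀ c c' : Set ℕ, SS f j m c ∈ Q U f E m → SS f j m c' ∈ Q U f E m →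
          SS f j m (c ∩ c') ∈ Q U f E m} →
      ∀ c : Set ℕ, c ∈ W ↔ SS f j m c ∈ Q U f E m := by
    intro m
    by_cases h : m ∈ {m | SS f j m univ ∈ Q U f E m} ∩
        {m | ∀ c : Set ℕ, SS f j m cᶜ ∉ Q U f E m ↔ SS f j m c ∈ Q U f E m} ∩
        {m | ∀ c c' : Set ℕ, SS f j m c ∈ Q U f E m → SS f j m c' ∈ Q U f E m →
          SS f j m (c ∩ c') ∈ Q U f E m}
    · obtain ⟨⟨h1, h2⟩, h3⟩ := h
      let L : Filter ℕ :=
        { sets := {c | SS f j m c ∈ Q U f E m}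
          univ_sets := h1
          sets_of_superset := fun {c c'} hc hcc => hup m c c' hc hcc
          inter_sets := fun {c c'} hc hc' => h3 c c' hc hc' }
      refine ⟨Ultrafilter.ofComplNotMemIff L (fun c => h2 c), fun _ c => Iff.rfl⟩
    · exact ⟨p, fun h' => absurd h' h⟩
  choose W hW using hW
  refine ⟨j, W, mem_of_superset hgood fun m hm => hW m hm, fun A => ?_⟩
  have h1 := hj (fun _ => A)
  have h2 : {e | e ∈ A} = A := rfl
  rw [h2] at h1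
  rw [h1]
  constructor
  · intro h
    exact mem_of_superset (inter_mem h hgood) fun m hm => (hW m hm.2 A).2 hm.1
  · intro h
    exact mem_of_superset (inter_mem h hgood) fun m hm => (hW m hm.2 A).1 hm.1

end Pool.Agent.BLA
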