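import Pool.Agent.BLA.Compact
import Pool.Agent.BLA.Fusion

/-!
# A named ultrafilter is an iterated limit of clopen families

Let `N` be the name. Bar induction (`Selective.bar`) with
`P s := ∃ D, WRed p D ∧ (∀ A ∈ D, ∀ B ∈ D, (A ∩ B).Nonempty) ∧
∀ y ∈ p, (∀ i ∈ s, ∀ j ∈ y, i < j) → ∀ A, N (s ∪ y) A → A ∈ D`.
If `{n | n > s, P (insert n s)} ∈ p` choose `D n` for these `n` (and the empty family, `clopen 0 ∅`,
for the other `n`); `{A | {n | A ∈ D n} ∈ p}` witnesses `P s`.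
If `P ∅`: the family `D` contains `U` and is intersecting, so it is equal to `U`.
Otherwise there is `x ∈ p` with `¬ P s` for all finite `s ⊆ x`; take `n ∈ x` from `compact_name`;
the clopen (`k = n + 1`) family `{A | ∃ B, (∃ y ∈ p, above, N (cut x n ∪ y) B) ∧
∀ i ≤ n, i ∈ B → i ∈ A}` witnesses `P (cut x n)`, a contradiction.
-/

namespace Pool.Agent.BLA

open Filter Set

theorem Named.wred {p U : Ultrafilter ℕ} (hp : Selective p) (hU : Named p U) :
    WRed p {A | A ∈ U} := by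
  classical
  obtain ⟨N, hN, hNU⟩ := hU
  let P : Finset ℕ → Prop := fun s => ∃ D : Set (Set ℕ), WRed p D ∧
    (∀ A ∈ D, ∀ B ∈ D, (A ∩ B).Nonempty) ∧
    ∀ y ∈ p, (∀ i ∈ s, ∀ j ∈ y, i < j) → ∀ A, N (↑s ∪ y) A → A ∈ D
  have hstep : ∀ s, {n | (∀ i ∈ s, i < n) ∧ P (insert n s)} ∈ p → P s := by
    intro s hZ
    set Z : Set ℕ := {n | (∀ i ∈ s, i < n) ∧ P (insert n s)} with hZdef
    have hch : ∀ n, ∃ D : Set (Set ℕ), WRed p D ∧ (∀ A ∈ D, ∀ B ∈ D, (A ∩ B).Nonempty) ∧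
        (n ∈ Z → ∀ y ∈ p, (∀ i ∈ insert n s, ∀ j ∈ y, i < j) →
          ∀ A, N (↑(insert n s) ∪ y) A → A ∈ D) := by
      intro n
      by_cases hn : n ∈ Z
      · obtain ⟨D, h1, h2, h3⟩ := hn.2
        exact ⟨D, h1, h2, fun _ => h3⟩
      · refine ⟨∅, WRed.clopen 0 ∅ (fun A B h _ => h.elim), fun A h => h.elim, fun h => (hn h).elim⟩
    choose D h1 h2 h3 using hch
    refine ⟨{A | {m | A ∈ D m} ∈ p}, WRed.lim D h1, ?_, ?_⟩
    · intro A hA B hB
      have hAB : {m | A ∈ D m} ∩ {m | B ∈ D m} ∈ p := inter_mem hA hB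
      obtain ⟨m, hm⟩ := p.nonempty_of_mem hAB
      exact h2 m A hm.1 B hm.2
    · intro y hy habove A hNA
      have hyZ : y ∩ Z ∈ p := inter_mem hy hZ
      show {m | A ∈ D m} ∈ p
      refine mem_of_superset hyZ ?_
      rintro n ⟨hny, hnZ⟩
      have hy' : y ∩ {j | n < j} ∈ p := inter_mem hy (hp.gt_mem n)
      refine h3 n hnZ _ hy' ?_ A ?_
      · intro i hi j hj
        rcases Finset.mem_insert.mp hi with rfl | hi
        · exact hj.2
        · exact habove i hi j hj.1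
      · refine hN.mono _ _ A hNA ?_
        rintro i (hi | hi)
        · rcases Finset.mem_insert.mp (Finset.mem_coe.mp hi) with rfl | hi
          · exact Or.inr hny
          · exact Or.inl hi
        · exact Or.inr hi.1
  rcases hp.bar P hstep with h | ⟨x, hx, hno⟩
  · obtain ⟨D, h1, h2, h3⟩ := h
    have hUD : ∀ A, A ∈ U → A ∈ D := by
      intro A hA
      obtain ⟨y, hy, hNy⟩ := (hNU A).mp hA
      refine h3 y hy (fun i hi => by simp at hi) A ?_
      simpa using hNy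
    have hDU : {A | A ∈ U} = D := by
      ext A
      constructor
      · exact hUD A
      · intro hA
        by_contra hAU
        have hAc : Aᶜ ∈ U := Ultrafilter.compl_mem_iff_notMem.mpr hAU
        obtain ⟨e, he1, he2⟩ := h2 A hA Aᶜ (hUD _ hAc)
        exact he2 he1
    rw [hDU]
    exact h1
  · exfalso
    obtain ⟨n, hnx, hcomp⟩ := compact_name hp hN hNU hx
    have hsub : (↑(cut x n) : Set ℕ) ⊆ x := by
      intro i hi
      exact (mem_cut.mp (Finset.mem_coe.mp hi)).2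
    refine hno (cut x n) hsub ?_
    refine ⟨{A | ∃ B, (∃ y ∈ p, (∀ i ∈ cut x n, ∀ j ∈ y, i < j) ∧ N (↑(cut x n) ∪ y) B) ∧
      ∀ i ≤ n, i ∈ B → i ∈ A}, ?_, ?_, ?_⟩
    · refine WRed.clopen (n + 1) _ ?_
      rintro A B ⟨C, hC, hCA⟩ hAB
      exact ⟨C, hC, fun i hi hiC => hAB i (by omega) (hCA i hi hiC)⟩
    · rintro A ⟨A', hA', hA'A⟩ B ⟨B', hB', hB'B⟩
      obtain ⟨i, hi, hiA, hiB⟩ := hcomp A' B' hA' hB'
      exact ⟨i, hA'A i hi hiA, hB'B i hi hiB⟩
    · intro y hy habove A hNA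
      exact ⟨A, ⟨y, hy, habove, hNA⟩, fun _ _ h => h⟩

end Pool.Agent.BLA
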