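import Pool.Agent.BLA.DecW
import Pool.Agent.BLA.DecN
import Pool.Agent.BLA.Red

/-!
# Decomposition over the least sky

By `Named.wred`, `WRed p {A | A ∈ U}`. Prove by induction on `WRed p D`: for all `B ∈ U`, `X ∉ U`
with `∀ A, (A ∩ B) ∪ X ∈ D ↔ A ∈ U`, the conclusion holds; the theorem is the case `D = U`,
`B = univ`, `X = ∅`.
`clopen k D`: `{e | k ≤ e} ∈ U` (nonprincipal), so `({e | k ≤ e} ∩ B) ∪ X ∈ D`, so
`(∅ ∩ B) ∪ X ∈ D`, so `∅ ∈ U`, a contradiction.
`lim D`: `E m = {A | (A ∩ B) ∪ X ∈ D m}`. If there is `X' ∉ U` with `{m | X' ∈ Q m} ∈ p`: `caseI`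
gives `m`; apply the IH for `D m` to `B' = B ∩ {m < f}` and `X'' = (X' ∩ {f ≤ m} ∩ B) ∪ X`.
Otherwise: `caseII` and `named_piece` (`{e | f e = m} ∈ W m` follows from the description of `W m`:
`univ ∈ W m`, and `univ ∩ {f = m} = {f = m} ∩ {f = m}`).
-/

namespace Pool.Agent.BLA

open Filter Set

theorem decomp {p U : Ultrafilter ℕ} (hp : Selective p) (hU : Named p U)
    (hn : ∀ n : ℕ, ({n} : Set ℕ) ∉ U) {f : ℕ → ℕ} (hf : LeastSky p U f) :
    ∃ W : ℕ → Ultrafilter ℕ,
      {m | Named p (W m) ∧ {e | f e = m} ∈ W m} ∈ p ∧ ∀ A, A ∈ U ↔ {m | A ∈ W m} ∈ p := by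
  have main : ∀ D : Set (Set ℕ), WRed p D → ∀ B ∈ U, ∀ X, X ∉ U →
      (∀ A, (A ∩ B) ∪ X ∈ D ↔ A ∈ U) → ∃ W : ℕ → Ultrafilter ℕ,
        {m | Named p (W m) ∧ {e | f e = m} ∈ W m} ∈ p ∧ ∀ A, A ∈ U ↔ {m | A ∈ W m} ∈ p := by
    intro D hD
    induction hD with
    | clopen k D hup =>
      intro B hB X hX h
      exfalso
      have hk : {e : ℕ | k ≤ e} ∈ U := by
        by_contra hcon
        rw [← Ultrafilter.compl_mem_iff_notMem] at hcon
        have hfin : ({e : ℕ | k ≤ e}ᶜ).Finite := by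
          apply (Set.finite_Iio k).subset
          intro e he
          simp only [Set.mem_compl_iff, Set.mem_ofPred_eq, not_le] at he
          exact he
        obtain ⟨x, _, hx⟩ := Ultrafilter.eq_pure_of_finite_mem hfin hcon
        apply hn x
        rw [hx]
        exact Ultrafilter.mem_pure.2 rfl
      have h1 := (h _).2 hk
      have h2 : (∅ ∩ B) ∪ X ∈ D := by
        apply hup _ _ h1
        intro i hi hmem
        rcases hmem with hmem | hmem
        · exact absurd hmem.1 (by simp only [Set.mem_ofPred_eq, not_le]; exact hi)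
        · exact Or.inr hmem
      exact Ultrafilter.empty_notMem ((h _).1 h2)
    | lim D hD ih =>
      intro B hB X hX h
      set E : ℕ → Set (Set ℕ) := fun m => {A | (A ∩ B) ∪ X ∈ D m} with hEdef
      have hE : ∀ m, ∀ A ∈ E m, ∀ B, A ⊆ B → B ∈ E m := by
        intro m A hA C hAC
        exact (hD m).upClosed _ hA _
          (Set.union_subset_union_left X (Set.inter_subset_inter_left B hAC))
      have hUE : ∀ A, A ∈ U ↔ {m | A ∈ E m} ∈ p := fun A => (h A).symm
      by_cases hI : ∃ X', X' ∉ U ∧ {m | X' ∈ Q U f E m} ∈ p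
      · obtain ⟨X', hX', hX'Q⟩ := hI
        obtain ⟨m, hm⟩ := caseI hp hf hE hUE hX' hX'Q
        have hfm : {e | m < f e} ∈ U := by
          have h1 : {n : ℕ | m < n} ∈ U.map f := by
            rw [hf.1]
            exact hp.gt_mem m
          exact h1
        refine ih m (B ∩ {e | m < f e}) (Filter.inter_mem hB hfm)
          ((X' ∩ {e | f e ≤ m} ∩ B) ∪ X) ?_ ?_
        · intro hmem
          rcases Ultrafilter.union_mem_iff.1 hmem with h1 | h1
          · exact hX' (Filter.mem_of_superset h1 (fun e he => he.1.1))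
          · exact hX h1
        · intro A
          rw [← hm A]
          have e1 : (A ∩ (B ∩ {e | m < f e})) ∪ ((X' ∩ {e | f e ≤ m} ∩ B) ∪ X)
              = (((X' ∩ {e | f e ≤ m}) ∪ (A ∩ {e | m < f e})) ∩ B) ∪ X := by
            ext e
            simp only [Set.mem_union, Set.mem_inter_iff, Set.mem_ofPred_eq]
            tauto
          rw [e1]
          exact Iff.rfl
      · push Not at hI
        have hII : ∀ X' : Set ℕ, {m | X' ∈ Q U f E m} ∈ p → X' ∈ U := by
          intro X' hX'
          by_contra hcon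
          exact hI X' hcon hX'
        obtain ⟨j, W, hW1, hW2⟩ := caseII hp hf hE hUE hII
        refine ⟨W, ?_, hW2⟩
        filter_upwards [hW1] with m hm
        refine ⟨named_piece hp hU f (hD m) B X j m (fun c => hm c), ?_⟩
        have h1 := (hm Set.univ).1 Filter.univ_mem
        rw [hm, Set.inter_self]
        rwa [Set.univ_inter] at h1
  refine main _ (Named.wred hp hU) Set.univ Filter.univ_mem ∅ Ultrafilter.empty_notMem ?_
  intro A
  simp

end Pool.Agent.BLA
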