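import Mathlib

/-!
# Ultrafilters with analytic names over a selective ultrafilter: definitions

`p` is always a selective ultrafilter on `ℕ`, `U` an ultrafilter on `ℕ`.
See `Pool/Agent/BLA/BLUEPRINT.md` for the plan and the paper proofs.
-/

namespace Pool.Agent.BLA

open Filter Set

/-- `p` is nonprincipal, and every function on `ℕ` is constant or injective on a set of `p`. -/
def Selective (p : Ultrafilter ℕ) : Prop :=
  (∀ n : ℕ, ({n} : Set ℕ) ∉ p) ∧
    ∀ f : ℕ → ℕ, (∃ n, f ⁻¹' {n} ∈ p) ∨ ∃ A ∈ p, InjOn f A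

/-- `w` is the Blass-Frolik sum of the ultrafilters `v n` along `u`, transported to `ℕ` by the
bijection `Nat.pair`. -/
def IsSum (u : Ultrafilter ℕ) (v : ℕ → Ultrafilter ℕ) (w : Ultrafilter ℕ) : Prop :=
  ∀ A : Set ℕ, A ∈ w ↔ {n | {k | Nat.pair n k ∈ A} ∈ v n} ∈ u

/-- The smallest family of ultrafilters on `ℕ` which contains `p` and is closed under images and
under sums. -/
inductive GP (p : Ultrafilter ℕ) : Ultrafilter ℕ → Prop
  | base : GP p p
  | image (u : Ultrafilter ℕ) (f : ℕ → ℕ) : GP p u → GP p (u.map f)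
  | sum (u : Ultrafilter ℕ) (v : ℕ → Ultrafilter ℕ) (w : Ultrafilter ℕ) :
      GP p u → (∀ n, GP p (v n)) → IsSum u v w → GP p w

/-- `A` and `B` have the same elements below `k`. -/
def Agree (k : ℕ) (A B : Set ℕ) : Prop := ∀ i < k, (i ∈ A ↔ i ∈ B)

/-- Closed names: `N y A` is monotone in `y`, up-closed in `A`, and closed at infinite `y`. -/
structure IsName (N : Set ℕ → Set ℕ → Prop) : Prop where
  mono : ∀ y y' A, N y A → y' ⊆ y → N y' A
  up : ∀ y A B, N y A → A ⊆ B → N y B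
  closed : ∀ y A, y.Infinite →
    (∀ k, ∃ y' A', Agree k y' y ∧ Agree k A' A ∧ N y' A') → N y A

/-- The family `D` of subsets of `ℕ` has a closed name over `p`. -/
def NamedFam (p : Ultrafilter ℕ) (D : Set (Set ℕ)) : Prop :=
  ∃ N, IsName N ∧ ∀ A, A ∈ D ↔ ∃ y ∈ p, N y A

/-- The ultrafilter `U` has a closed name over `p`. -/
def Named (p U : Ultrafilter ℕ) : Prop :=
  ∃ N, IsName N ∧ ∀ A, A ∈ U ↔ ∃ y ∈ p, N y A

/-- Iterated limits along `p` of up-closed clopen families. -/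
inductive WRed (p : Ultrafilter ℕ) : Set (Set ℕ) → Prop
  | clopen (k : ℕ) (D : Set (Set ℕ)) :
      (∀ A B, A ∈ D → (∀ i < k, i ∈ A → i ∈ B) → B ∈ D) → WRed p D
  | lim (D : ℕ → Set (Set ℕ)) : (∀ m, WRed p (D m)) → WRed p {A | {m | A ∈ D m} ∈ p}

/-- The largest element of a finite set (`0` for the empty set). -/
def top (s : Finset ℕ) : ℕ := s.sup id

/-- `t` is an initial segment of `s`. -/
def Init (t s : Finset ℕ) : Prop := t ⊆ s ∧ ∀ i ∈ s, i ∉ t → ∀ j ∈ t, j < i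

open Classical in
/-- The finite set of the elements of `v` which are at most `n`. -/
noncomputable def cut (v : Set ℕ) (n : ℕ) : Finset ℕ := (Finset.range (n + 1)).filter (· ∈ v)

theorem mem_cut {v : Set ℕ} {n i : ℕ} : i ∈ cut v n ↔ i ≤ n ∧ i ∈ v := by
  classical
  simp [cut, Nat.lt_succ_iff]

/-- A representation of the ultrafilter `U` by a front `F` and intersecting up-closed families `C s`
on the intervals `[0, top s]`, `s ∈ F`. -/
structure Rep (p U : Ultrafilter ℕ) (F : Set (Finset ℕ)) (C : Finset ℕ → Set (Set ℕ)) : Prop where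
  nonempty : ∀ s ∈ F, s.Nonempty
  anti : ∀ s ∈ F, ∀ t ∈ F, Init t s → t = s
  up : ∀ s ∈ F, ∀ A ∈ C s, ∀ B : Set ℕ, (∀ i ≤ top s, i ∈ A → i ∈ B) → B ∈ C s
  inter : ∀ s ∈ F, ∀ A ∈ C s, ∀ B ∈ C s, ∃ i ≤ top s, i ∈ A ∧ i ∈ B
  mem : ∀ A ∈ U, ∃ y ∈ p, ∀ s ∈ F, (s : Set ℕ) ⊆ y → A ∈ C s
  bar : ∀ x ∈ p, ∃ s ∈ F, (s : Set ℕ) ⊆ x ∧ ∀ i ∈ x, i ≤ top s → i ∈ s

/-- Well-founded trees, branching at every node over `ℕ`. -/
inductive PTree
  | leaf : PTree
  | node : (ℕ → PTree) → PTree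

/-- The (increasing) branches of a tree, as finite sets. -/
def Br : PTree → Set (Finset ℕ)
  | .leaf => {∅}
  | .node T => {b | ∃ m b', b' ∈ Br (T m) ∧ (∀ i ∈ b', m < i) ∧ b = insert m b'}

/-- `U` lies above the iterated power of `p` given by the tree `T`. -/
def Sees (p U : Ultrafilter ℕ) (T : PTree) : Prop :=
  ∃ f : ℕ → Finset ℕ, ∀ z ∈ p, {e | f e ∈ Br T ∧ (f e : Set ℕ) ⊆ z} ∈ U

/-- `f` maps `U` to `p` and lies in the least sky: `U` has pseudo-intersections modulo the sets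
`{e | f e ≤ j}`. -/
def LeastSky (p U : Ultrafilter ℕ) (f : ℕ → ℕ) : Prop :=
  U.map f = p ∧ ∀ A : ℕ → Set ℕ, (∀ i, A i ∈ U) →
    ∃ A' ∈ U, ∃ j : ℕ → ℕ, ∀ i, ∀ e ∈ A', j i < f e → e ∈ A i

open Classical in
/-- The first index `m ≤ e` at which `Ok m e` or `f m e ⊆ z` fails, and `e + 1` if there is
none. -/
noncomputable def J (Ok : ℕ → ℕ → Prop) (f : ℕ → ℕ → Finset ℕ) (z : Set ℕ) (e : ℕ) : ℕ :=
  sInf ({m | ¬ (Ok m e ∧ (f m e : Set ℕ) ⊆ z)} ∪ {e + 1})

end Pool.Agent.BLA
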