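import Pool.Agent.BLA.Defs

/-!
# Diagonalisation for a selective ultrafilter

Paper proof of `Selective.diag`. Put `Y k = {n | k < n ∧ ∀ i ≤ k, n ∈ X i} ∈ p` (decreasing, with
empty intersection) and `g n = min {k | n ∉ Y k} ≤ n`. `g` is not constant on a set of `p` (if
`g = k` on `A ∈ p` then `A ∩ Y k = ∅`), so `g` is injective on some `A ∈ p`; so there is
`h : ℕ → ℕ` with `n ∈ A`, `h k ≤ n` implies `n ∈ Y k`. Let `a 0 = 0`,
`a (i+1) = 1 + a i + max_{k ≤ a i} h k`, and let `b n` be the block `i` with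
`a i ≤ n < a (i+1)`. `b` is finite-to-one, hence injective on some `B ∈ p`; the parity of `b` is
constant on a set `P ∈ p`. Take `x = A ∩ B ∩ P`: for `k < n` in `x` we have `b n ≥ b k + 2`, so
`n ≥ a (b k + 2) ≥ h k` (as `k < a (b k + 1)`), so `n ∈ Y k ⊆ X k`.
-/

namespace Pool.Agent.BLA

open Filter Set

theorem Selective.compl_finite_mem {p : Ultrafilter ℕ} (hp : Selective p) {s : Set ℕ}
    (hs : s.Finite) : sᶜ ∈ p := by
  rw [Ultrafilter.compl_mem_iff_notMem]
  intro hmem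
  obtain ⟨x, _, hx⟩ := Ultrafilter.eq_pure_of_finite_mem hs hmem
  apply hp.1 x
  rw [hx]
  exact Ultrafilter.mem_pure.2 rfl

theorem Selective.gt_mem {p : Ultrafilter ℕ} (hp : Selective p) (k : ℕ) : {n : ℕ | k < n} ∈ p := by
  have h := hp.compl_finite_mem (Set.finite_Iic k)
  have e : (Set.Iic k)ᶜ = {n : ℕ | k < n} := by
    ext n
    simp
  rwa [e] at h

theorem Selective.infinite {p : Ultrafilter ℕ} (hp : Selective p) {x : Set ℕ} (hx : x ∈ p) :
    x.Infinite := by
  intro hfin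
  have h := hp.compl_finite_mem hfin
  rw [Ultrafilter.compl_mem_iff_notMem] at h
  exact h hx

theorem Selective.diag {p : Ultrafilter ℕ} (hp : Selective p) (X : ℕ → Set ℕ)
    (hX : ∀ k, X k ∈ p) : ∃ x ∈ p, ∀ k ∈ x, ∀ n ∈ x, k < n → n ∈ X k := by
  classical
  set Y : ℕ → Set ℕ := fun k => {n | k < n ∧ ∀ i ≤ k, n ∈ X i} with hY
  have hYp : ∀ k, Y k ∈ p := by
    intro k
    have h1 : (⋂ i ∈ Set.Iic k, X i) ∈ p := by
      have := (Filter.biInter_mem (f := (p : Filter ℕ)) (s := X) (Set.finite_Iic k)).2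
        (fun i _ => hX i)
      exact this
    filter_upwards [hp.gt_mem k, h1] with n h2 h3
    refine ⟨h2, fun i hi => ?_⟩
    exact Set.mem_iInter₂.1 h3 i hi
  have hYmono : ∀ k k' n, k ≤ k' → n ∈ Y k' → n ∈ Y k := by
    rintro k k' n hk ⟨h1, h2⟩
    exact ⟨lt_of_le_of_lt hk h1, fun i hi => h2 i (hi.trans hk)⟩
  have hex : ∀ n, ∃ k, n ∉ Y k := fun n => ⟨n, fun h => lt_irrefl n h.1⟩
  set g : ℕ → ℕ := fun n => Nat.find (hex n) with hg
  have hg1 : ∀ n, n ∉ Y (g n) := fun n => Nat.find_spec (hex n)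
  have hg2 : ∀ n k, n ∉ Y k → g n ≤ k := fun n k h => Nat.find_min' (hex n) h
  obtain ⟨A, hA, hinj⟩ : ∃ A ∈ p, InjOn g A := by
    rcases hp.2 g with ⟨k, hk⟩ | h
    · exfalso
      have h1 : g ⁻¹' {k} ∩ Y k ∈ p := Filter.inter_mem hk (hYp k)
      have h2 : g ⁻¹' {k} ∩ Y k = ∅ := by
        ext n
        simp only [Set.mem_inter_iff, Set.mem_preimage, Set.mem_singleton_iff,
          Set.mem_empty_iff_false, iff_false, not_and]
        intro h3 h4
        exact hg1 n (h3 ▸ h4)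
      rw [h2] at h1
      exact Ultrafilter.empty_notMem h1
    · exact h
  -- the bound
  have hbound : ∀ k, ∃ h : ℕ, ∀ n ∈ A, h ≤ n → n ∈ Y k := by
    intro k
    have hfin : (A ∩ g ⁻¹' (Set.Iic k)).Finite := by
      apply Set.Finite.of_finite_image _ (hinj.mono Set.inter_subset_left)
      apply (Set.finite_Iic k).subset
      rintro _ ⟨n, hn, rfl⟩
      exact hn.2
    obtain ⟨B, hB⟩ := hfin.bddAbove
    refine ⟨B + 1, fun n hn hle => ?_⟩
    by_contra hnY
    have := hB ⟨hn, hg2 n k hnY⟩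
    omega
  choose h hh using hbound
  -- the blocks
  set a : ℕ → ℕ := fun i => Nat.rec 0 (fun _ r => 1 + r + ((Finset.range (r + 1)).sup h)) i with ha
  have ha0 : a 0 = 0 := rfl
  have haS : ∀ i, a (i + 1) = 1 + a i + ((Finset.range (a i + 1)).sup h) := fun i => rfl
  have hamono : StrictMono a := strictMono_nat_of_lt_succ fun i => by rw [haS]; omega
  have hale : ∀ i, i ≤ a i := fun i => hamono.le_apply
  have hah : ∀ i k, k ≤ a i → h k ≤ a (i + 1) := by
    intro i k hk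
    rw [haS]
    have : h k ≤ (Finset.range (a i + 1)).sup h :=
      Finset.le_sup (Finset.mem_range.2 (Nat.lt_succ_of_le hk))
    omega
  set b : ℕ → ℕ := fun n => Nat.findGreatest (fun i => a i ≤ n) n with hb
  have hb1 : ∀ n, a (b n) ≤ n := by
    intro n
    have := Nat.findGreatest_spec (P := fun i => a i ≤ n) (Nat.zero_le n)
      (show a 0 ≤ n by rw [ha0]; exact Nat.zero_le n)
    exact this
  have hb2 : ∀ n, n < a (b n + 1) := by
    intro n
    by_contra hcon
    push Not at hcon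
    have h1 : b n + 1 ≤ n := (hale _).trans hcon
    have h2 := Nat.le_findGreatest (P := fun i => a i ≤ n) h1 hcon
    have h3 : b n + 1 ≤ b n := h2
    omega
  have hbmono : ∀ k n, k ≤ n → b k ≤ b n := by
    intro k n hkn
    by_contra hcon
    push Not at hcon
    have h1 : a (b n + 1) ≤ a (b k) := hamono.monotone hcon
    have h2 := hb1 k
    have h3 := hb2 n
    omega
  obtain ⟨B, hB, hinjB⟩ : ∃ B ∈ p, InjOn b B := by
    rcases hp.2 b with ⟨i, hi⟩ | h'
    · exfalso
      apply hp.infinite hi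
      apply (Set.finite_Iio (a (i + 1))).subset
      intro n hn
      have h1 := hb2 n
      rw [Set.mem_preimage, Set.mem_singleton_iff] at hn
      rw [hn] at h1
      exact h1
    · exact h'
  obtain ⟨c, hc⟩ : ∃ c : ℕ, {n | b n % 2 = c} ∈ p := by
    by_cases h0 : {n | b n % 2 = 0} ∈ p
    · exact ⟨0, h0⟩
    · refine ⟨1, ?_⟩
      rw [← Ultrafilter.compl_mem_iff_notMem] at h0
      filter_upwards [h0] with n hn
      simp only [Set.mem_compl_iff] at hn
      have h2 : ¬ (b n % 2 = 0) := hn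
      show b n % 2 = 1
      omega
  refine ⟨A ∩ B ∩ {n | b n % 2 = c}, Filter.inter_mem (Filter.inter_mem hA hB) hc, ?_⟩
  rintro k ⟨⟨hkA, hkB⟩, hkc⟩ n ⟨⟨hnA, hnB⟩, hnc⟩ hkn
  have h1 := hbmono k n hkn.le
  have h2 : b k ≠ b n := fun e => hkn.ne (hinjB hkB hnB e)
  have h3 : b k % 2 = c := hkc
  have h4 : b n % 2 = c := hnc
  have h5 : b k + 2 ≤ b n := by omega
  have h6 : a (b k + 2) ≤ n := (hamono.monotone h5).trans (hb1 n)
  have h7 : h k ≤ a (b k + 2) := hah (b k + 1) k (hb2 k).le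
  have h8 := hh k n hnA (h7.trans h6)
  exact h8.2 k le_rfl

end Pool.Agent.BLA
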