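import Pool.Agent.BLA.Fusion

/-!
# The two-branch lemma

`F` is a front: nonempty finite sets, pairwise incomparable for `Init`, such that every `x ∈ p` has
an initial segment in `F`.

Paper proof. Let `W s v` (big set `s`, small set `v ⊆ s`) be the inductive predicate with
constructors
* `done`: `v ∈ F` and `G s v`,
* `take`: `v ∉ F` and `∃ Y ∈ p, ∀ n ∈ Y, W (insert n s) (insert n v)`,
* `skip`: `v ∉ F` and `∃ Y ∈ p, ∀ n ∈ Y, W (insert n s) v`.

Step 1: `W ∅ ∅`. Otherwise, `fusion` (with `X s` the intersection over `u ⊆ s`, `u ∉ F`,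
`¬ W s u` of `{n | ¬ W (insert n s) (insert n u)}` and `{n | ¬ W (insert n s) u}`, which are in `p`)
gives `v₀ ∈ p` such that `¬ W` persists along `v₀`. Put `v = v₀ ∩ x`, take `w ⊆ v` from `H`, and
an initial segment `t ∈ F` of `w` (from `hbar`). Walk along `v` up to `top t`:
`¬ W (v ∩ [0,n)) (w ∩ [0,n))` for all `n ≤ top t + 1`, by induction on `n` (for `n ≤ top t` the set
`w ∩ [0,n)` is a proper initial segment of `t`, so it is not in `F` by `hanti` and `hne`).
At the end `¬ W (cut v (top t)) t`, against `G (cut v (top t)) t` and `done`.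

Step 2 (merging). Claim: if `W s₁ v` and `W s₂ v` and `m : ℕ`, then there are `S₁ ⊇ s₁`, `S₂ ⊇ s₂`
and `t ⊇ v` in `F` with `G S₁ t`, `G S₂ t`, all elements of `S₁ ∖ s₁`, `S₂ ∖ s₂` are `≥ m`,
`t ∖ v ⊆ S₁ ∖ s₁`, `t ∖ v ⊆ S₂ ∖ s₂`, `(S₁ ∖ s₁) ∩ (S₂ ∖ s₂) ⊆ t`, and for all `a ∈ S₁ ∖ s₁`,
`a ∉ t`, and `b ∈ S₂ ∖ s₂`, `b ∉ t`, `b < a` there is `c ∈ t ∖ v` with `b < c < a`.
Outer induction on `W s₁ v` (for all `s₂, m`):
`done`: then `W s₂ v` is `done` as well (`v ∈ F`), take `S_i = s_i`, `t = v`.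
`skip`: pick `n ∈ Y`, `n ≥ m`, apply the IH with `insert n s₁`, `s₂`, `m' = n + 1`.
`take` (with `Y₁`): inner induction on `W s₂ v` (for all `m`) for the claim together with
(★) `∀ a ∈ S₁ ∖ s₁, a ∉ t → ∃ c ∈ t ∖ v, m ≤ c ∧ c < a`:
inner `done` is impossible; inner `skip` (with `Y₂`): pick `n ∈ Y₂`, `n ≥ m`, inner IH for
`insert n s₂`, `m' = n + 1`, where (★) settles the new `b = n`; inner `take` (with `Y₂`): pick
`n ∈ Y₁ ∩ Y₂`, `n ≥ m`, outer IH for `insert n s₁, insert n s₂, insert n v`, `m' = n + 1`;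
(★) holds with `c = n`.
The conclusion is the claim for `s₁ = s₂ = v = ∅`, `m = 0`.
-/

namespace Pool.Agent.BLA

open Filter Set

/-- The game of the two-branch lemma: big set `s`, small set `v`. -/
inductive TW (p : Ultrafilter ℕ) (F : Set (Finset ℕ)) (G : Finset ℕ → Finset ℕ → Prop) :
    Finset ℕ → Finset ℕ → Prop
  | done (s v : Finset ℕ) : v ∈ F → G s v → TW p F G s v
  | take (s v : Finset ℕ) (Y : Set ℕ) : v ∉ F → Y ∈ p →
      (∀ n ∈ Y, TW p F G (insert n s) (insert n v)) → TW p F G s v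
  | skip (s v : Finset ℕ) (Y : Set ℕ) : v ∉ F → Y ∈ p →
      (∀ n ∈ Y, TW p F G (insert n s) v) → TW p F G s v

/-- The merged configuration. -/
def Mg (F : Set (Finset ℕ)) (G : Finset ℕ → Finset ℕ → Prop) (s₁ s₂ v : Finset ℕ) (m : ℕ)
    (S₁ S₂ t : Finset ℕ) : Prop :=
  s₁ ⊆ S₁ ∧ s₂ ⊆ S₂ ∧ v ⊆ t ∧ t ∈ F ∧ G S₁ t ∧ G S₂ t ∧
    (∀ a ∈ S₁, a ∉ s₁ → m ≤ a) ∧ (∀ b ∈ S₂, b ∉ s₂ → m ≤ b) ∧
    (∀ c ∈ t, c ∉ v → (c ∈ S₁ ∧ c ∉ s₁) ∧ (c ∈ S₂ ∧ c ∉ s₂)) ∧
    (∀ a ∈ S₁, a ∉ s₁ → a ∈ S₂ → a ∉ s₂ → a ∈ t) ∧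
    (∀ a ∈ S₁, a ∉ s₁ → a ∉ t → ∀ b ∈ S₂, b ∉ s₂ → b ∉ t → b < a →
      ∃ c ∈ t, c ∉ v ∧ b < c ∧ c < a)

private lemma pick {p : Ultrafilter ℕ} (hp : Selective p) {Y : Set ℕ} (hY : Y ∈ p) (m : ℕ)
    (s : Finset ℕ) : ∃ n ∈ Y, m ≤ n ∧ ∀ i ∈ s, i < n := by
  obtain ⟨n, h1, h2⟩ := p.nonempty_of_mem (Filter.inter_mem hY (hp.gt_mem (max m (s.sup id))))
  have h3 : max m (s.sup id) < n := h2
  refine ⟨n, h1, by omega, fun i hi => ?_⟩
  have h4 : i ≤ s.sup id := Finset.le_sup (f := id) hi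
  omega

private lemma merge {p : Ultrafilter ℕ} (hp : Selective p) {F : Set (Finset ℕ)}
    {G : Finset ℕ → Finset ℕ → Prop} {s₁ v : Finset ℕ} (h₁ : TW p F G s₁ v) :
    ∀ s₂ m, TW p F G s₂ v → ∃ S₁ S₂ t, Mg F G s₁ s₂ v m S₁ S₂ t := by
  induction h₁ with
  | done s v hv hG =>
    intro s₂ m h₂
    have hG2 : G s₂ v := by
      cases h₂ with
      | done _ _ _ h => exact h
      | take _ _ _ h => exact absurd hv h
      | skip _ _ _ h => exact absurd hv h
    exact ⟨s, s₂, v, Finset.Subset.refl _, Finset.Subset.refl _, Finset.Subset.refl _, hv, hG, hG2,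
      fun a h1 h2 => absurd h1 h2, fun a h1 h2 => absurd h1 h2, fun a h1 h2 => absurd h1 h2,
      fun a h1 h2 => absurd h1 h2, fun a h1 h2 => absurd h1 h2⟩
  | skip s v Y hv hY _ ih =>
    intro s₂ m h₂
    obtain ⟨n, hn, hmn, hns⟩ := pick hp hY m (s ∪ s₂ ∪ v)
    obtain ⟨S₁, S₂, t, a1, a2, a3, a4, a5, a6, a7, a8, a9, a10, a11⟩ := ih n hn s₂ (n + 1) h₂
    have key : ∀ a ∈ S₁, a ∉ s → a ≠ n → a ∉ insert n s := by
      intro a _ h2 h3 h4
      rcases Finset.mem_insert.1 h4 with h | h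
      · exact h3 h
      · exact h2 h
    refine ⟨S₁, S₂, t, (Finset.subset_insert _ _).trans a1, a2, a3, a4, a5, a6, ?_, ?_, ?_, ?_, ?_⟩
    · intro a ha has
      by_cases h : a = n
      · omega
      · have := a7 a ha (key a ha has h)
        omega
    · intro b hb hbs
      have := a8 b hb hbs
      omega
    · intro c hc hcv
      obtain ⟨⟨h1, h2⟩, h3⟩ := a9 c hc hcv
      exact ⟨⟨h1, fun h => h2 (Finset.mem_insert_of_mem h)⟩, h3⟩
    · intro a ha has ha2 has2
      by_cases h : a = n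
      · have := a8 a ha2 has2
        omega
      · exact a10 a ha (key a ha has h) ha2 has2
    · intro a ha has hat b hb hbs hbt hba
      by_cases h : a = n
      · have := a8 b hb hbs
        omega
      · exact a11 a ha (key a ha has h) hat b hb hbs hbt hba
  | take s v Y hv hY hW ih =>
    intro s₂ m h₂
    suffices hh : ∃ S₁ S₂ t, Mg F G s s₂ v m S₁ S₂ t ∧
        ∀ a ∈ S₁, a ∉ s → a ∉ t → ∃ c ∈ t, c ∉ v ∧ m ≤ c ∧ c < a by
      obtain ⟨S₁, S₂, t, h, _⟩ := hh
      exact ⟨S₁, S₂, t, h⟩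
    induction h₂ generalizing m with
    | done s₂ v hv2 _ => exact absurd hv2 hv
    | skip s₂ v Y₂ _ hY₂ _ ih₂ =>
      obtain ⟨n, hn, hmn, hns⟩ := pick hp hY₂ m (s ∪ s₂ ∪ v)
      obtain ⟨S₁, S₂, t, ⟨a1, a2, a3, a4, a5, a6, a7, a8, a9, a10, a11⟩, a12⟩ :=
        ih₂ n hn hv hW ih (n + 1)
      have key : ∀ a ∈ S₂, a ∉ s₂ → a ≠ n → a ∉ insert n s₂ := by
        intro a _ h2 h3 h4
        rcases Finset.mem_insert.1 h4 with h | h
        · exact h3 h
        · exact h2 h
      refine ⟨S₁, S₂, t, ⟨a1, (Finset.subset_insert _ _).trans a2, a3, a4, a5, a6, ?_, ?_, ?_, ?_,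
        ?_⟩, ?_⟩
      · intro a ha has
        have := a7 a ha has
        omega
      · intro a ha has
        by_cases h : a = n
        · omega
        · have := a8 a ha (key a ha has h)
          omega
      · intro c hc hcv
        obtain ⟨h3, ⟨h1, h2⟩⟩ := a9 c hc hcv
        exact ⟨h3, ⟨h1, fun h => h2 (Finset.mem_insert_of_mem h)⟩⟩
      · intro a ha has ha2 has2
        by_cases h : a = n
        · have := a7 a ha has
          omega
        · exact a10 a ha has ha2 (key a ha2 has2 h)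
      · intro a ha has hat b hb hbs hbt hba
        by_cases h : b = n
        · obtain ⟨c, c1, c2, c3, c4⟩ := a12 a ha has hat
          exact ⟨c, c1, c2, by omega, c4⟩
        · exact a11 a ha has hat b hb (key b hb hbs h) hbt hba
      · intro a ha has hat
        obtain ⟨c, c1, c2, c3, c4⟩ := a12 a ha has hat
        exact ⟨c, c1, c2, by omega, c4⟩
    | take s₂ v Y₂ _ hY₂ h₂ _ =>
      obtain ⟨n, hn, hmn, hns⟩ := pick hp (Filter.inter_mem hY hY₂) m (s ∪ s₂ ∪ v)
      obtain ⟨S₁, S₂, t, a1, a2, a3, a4, a5, a6, a7, a8, a9, a10, a11⟩ :=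
        ih n hn.1 (insert n s₂) (n + 1) (h₂ n hn.2)
      have n1 : n ∉ s := fun h => by
        have := hns n (by simp [h])
        omega
      have n2 : n ∉ s₂ := fun h => by
        have := hns n (by simp [h])
        omega
      have n3 : n ∉ v := fun h => by
        have := hns n (by simp [h])
        omega
      have m1 : n ∈ S₁ := a1 (Finset.mem_insert_self _ _)
      have m2 : n ∈ S₂ := a2 (Finset.mem_insert_self _ _)
      have m3 : n ∈ t := a3 (Finset.mem_insert_self _ _)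
      have key : ∀ (u : Finset ℕ) (a : ℕ), a ∉ u → a ≠ n → a ∉ insert n u := by
        intro u a h2 h3 h4
        rcases Finset.mem_insert.1 h4 with h | h
        · exact h3 h
        · exact h2 h
      refine ⟨S₁, S₂, t, ⟨(Finset.subset_insert _ _).trans a1, (Finset.subset_insert _ _).trans a2,
        (Finset.subset_insert _ _).trans a3, a4, a5, a6, ?_, ?_, ?_, ?_, ?_⟩, ?_⟩
      · intro a ha has
        by_cases h : a = n
        · omega
        · have := a7 a ha (key s a has h)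
          omega
      · intro a ha has
        by_cases h : a = n
        · omega
        · have := a8 a ha (key s₂ a has h)
          omega
      · intro c hc hcv
        by_cases h : c = n
        · subst h
          exact ⟨⟨m1, n1⟩, ⟨m2, n2⟩⟩
        · obtain ⟨⟨h1, h2⟩, ⟨h3, h4⟩⟩ := a9 c hc (key v c hcv h)
          exact ⟨⟨h1, fun h => h2 (Finset.mem_insert_of_mem h)⟩,
            ⟨h3, fun h => h4 (Finset.mem_insert_of_mem h)⟩⟩
      · intro a ha has ha2 has2
        by_cases h : a = n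
        · rw [h]; exact m3
        · exact a10 a ha (key s a has h) ha2 (key s₂ a has2 h)
      · intro a ha has hat b hb hbs hbt hba
        have h1 : a ≠ n := fun h => hat (by rw [h]; exact m3)
        have h2 : b ≠ n := fun h => hbt (by rw [h]; exact m3)
        obtain ⟨c, c1, c2, c3, c4⟩ := a11 a ha (key s a has h1) hat b hb (key s₂ b hbs h2) hbt hba
        exact ⟨c, c1, fun h => c2 (Finset.mem_insert_of_mem h), c3, c4⟩
      · intro a ha has hat
        have h1 : a ≠ n := fun h => hat (by rw [h]; exact m3)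
        have := a7 a ha (key s a has h1)
        exact ⟨n, m3, n3, hmn, by omega⟩

open Classical in
private noncomputable def low (v : Set ℕ) (n : ℕ) : Finset ℕ := (Finset.range n).filter (· ∈ v)

private lemma mem_low {v : Set ℕ} {n i : ℕ} : i ∈ low v n ↔ i < n ∧ i ∈ v := by
  classical
  simp [low]

private lemma low_succ_of_mem {v : Set ℕ} {n : ℕ} (h : n ∈ v) :
    low v (n + 1) = insert n (low v n) := by
  ext i
  rw [Finset.mem_insert, mem_low, mem_low]
  constructor
  · rintro ⟨h1, h2⟩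
    by_cases h3 : i = n
    · exact Or.inl h3
    · exact Or.inr ⟨by omega, h2⟩
  · rintro (rfl | ⟨h1, h2⟩)
    · exact ⟨by omega, h⟩
    · exact ⟨by omega, h2⟩

private lemma low_succ_of_not_mem {v : Set ℕ} {n : ℕ} (h : n ∉ v) : low v (n + 1) = low v n := by
  ext i
  rw [mem_low, mem_low]
  constructor
  · rintro ⟨h1, h2⟩
    have : i ≠ n := fun h3 => h (h3 ▸ h2)
    exact ⟨by omega, h2⟩
  · rintro ⟨h1, h2⟩
    exact ⟨by omega, h2⟩

private lemma start {p : Ultrafilter ℕ} (hp : Selective p) (F : Set (Finset ℕ))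
    (hne : ∀ s ∈ F, s.Nonempty) (hanti : ∀ s ∈ F, ∀ t ∈ F, Init t s → t = s)
    (hbar : ∀ x ∈ p, ∃ s ∈ F, (s : Set ℕ) ⊆ x ∧ ∀ i ∈ x, i ≤ top s → i ∈ s)
    (G : Finset ℕ → Finset ℕ → Prop) (x : Set ℕ) (hx : x ∈ p)
    (H : ∀ v ∈ p, v ⊆ x → ∃ w ∈ p, w ⊆ v ∧
      ∀ t ∈ F, (t : Set ℕ) ⊆ w → G (cut v (top t)) t) : TW p F G ∅ ∅ := by
  by_contra hcon
  obtain ⟨v₀, hv₀, hf⟩ := hp.fusion (fun s => {n | ∀ u ∈ s.powerset, u ∉ F → ¬ TW p F G s u →
    ¬ TW p F G (insert n s) (insert n u) ∧ ¬ TW p F G (insert n s) u}) (by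
    intro s
    have h1 : ∀ u ∈ s.powerset, {n | u ∉ F → ¬ TW p F G s u →
        ¬ TW p F G (insert n s) (insert n u) ∧ ¬ TW p F G (insert n s) u} ∈ (p : Filter ℕ) := by
      intro u _
      by_cases hu : u ∈ F
      · exact Filter.mem_of_superset Filter.univ_mem fun n _ h => absurd hu h
      by_cases hW : TW p F G s u
      · exact Filter.mem_of_superset Filter.univ_mem fun n _ _ h => absurd hW h
      have h2 : {n | ¬ TW p F G (insert n s) (insert n u)} ∈ p := by
        by_contra h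
        rw [← Ultrafilter.compl_mem_iff_notMem] at h
        refine hW (TW.take s u _ hu h fun n hn => ?_)
        simpa using hn
      have h3 : {n | ¬ TW p F G (insert n s) u} ∈ p := by
        by_contra h
        rw [← Ultrafilter.compl_mem_iff_notMem] at h
        refine hW (TW.skip s u _ hu h fun n hn => ?_)
        simpa using hn
      exact Filter.mem_of_superset (Filter.inter_mem h2 h3) fun n hn _ _ => ⟨hn.1, hn.2⟩
    have h4 := (Filter.biInter_finset_mem s.powerset).2 h1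
    refine Filter.mem_of_superset h4 fun n hn u hu => ?_
    exact Set.mem_iInter₂.1 hn u hu)
  obtain ⟨w, hw, hwv, hG⟩ := H (v₀ ∩ x) (Filter.inter_mem hv₀ hx) Set.inter_subset_right
  set v := v₀ ∩ x with hv
  obtain ⟨t, htF, htw, hti⟩ := hbar w hw
  have htop : top t ∈ t := by
    obtain ⟨b, hb, hb2⟩ := Finset.exists_mem_eq_sup t (hne t htF) id
    unfold top
    rw [hb2]; exact hb
  have hle : ∀ i ∈ t, i ≤ top t := fun i hi => Finset.le_sup (f := id) hi
  have walk : ∀ n, n ≤ top t + 1 → ¬ TW p F G (low v n) (low w n) := by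
    intro n
    induction n with
    | zero =>
      intro _
      have e : ∀ u : Set ℕ, low u 0 = ∅ := by
        intro u
        ext i
        rw [mem_low]
        simp
      rw [e, e]
      exact hcon
    | succ n ih =>
      intro hn
      have ih' := ih (by omega)
      by_cases hnv : n ∈ v
      · have huF : low w n ∉ F := by
          intro hF
          have h1 : Init (low w n) t := by
            constructor
            · intro i hi
              rw [mem_low] at hi
              exact hti i hi.2 (by omega)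
            · intro i hi hi2 j hj
              rw [mem_low] at hi2 hj
              have : ¬ i < n := fun h => hi2 ⟨h, htw hi⟩
              omega
          have h2 := hanti t htF _ hF h1
          have h3 : top t ∈ low w n := by rw [h2]; exact htop
          rw [mem_low] at h3
          omega
        have h4 := hf (low v n) (by
          intro i hi
          have := mem_low.1 (Finset.mem_coe.1 hi)
          exact this.2.1) n hnv.1 (fun i hi => (mem_low.1 hi).1)
        have h5 := h4 (low w n) (by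
          rw [Finset.mem_powerset]
          intro i hi
          rw [mem_low] at hi ⊢
          exact ⟨hi.1, hwv hi.2⟩) huF ih'
        rw [low_succ_of_mem hnv]
        by_cases hnw : n ∈ w
        · rw [low_succ_of_mem hnw]; exact h5.1
        · rw [low_succ_of_not_mem hnw]; exact h5.2
      · have hnw : n ∉ w := fun h => hnv (hwv h)
        rw [low_succ_of_not_mem hnv, low_succ_of_not_mem hnw]
        exact ih'
  have h1 := walk (top t + 1) le_rfl
  have e1 : low v (top t + 1) = cut v (top t) := by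
    ext i
    rw [mem_low, mem_cut]
    constructor
    · rintro ⟨a, b⟩; exact ⟨by omega, b⟩
    · rintro ⟨a, b⟩; exact ⟨by omega, b⟩
  have e2 : low w (top t + 1) = t := by
    ext i
    rw [mem_low]
    constructor
    · rintro ⟨a, b⟩; exact hti i b (by omega)
    · intro hi; exact ⟨by have := hle i hi; omega, htw hi⟩
  rw [e1, e2] at h1
  exact h1 (TW.done _ _ htF (hG t htF htw))

theorem two_branch {p : Ultrafilter ℕ} (hp : Selective p) (F : Set (Finset ℕ))
    (hne : ∀ s ∈ F, s.Nonempty) (hanti : ∀ s ∈ F, ∀ t ∈ F, Init t s → t = s)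
    (hbar : ∀ x ∈ p, ∃ s ∈ F, (s : Set ℕ) ⊆ x ∧ ∀ i ∈ x, i ≤ top s → i ∈ s)
    (G : Finset ℕ → Finset ℕ → Prop) (x : Set ℕ) (hx : x ∈ p)
    (H : ∀ v ∈ p, v ⊆ x → ∃ w ∈ p, w ⊆ v ∧
      ∀ t ∈ F, (t : Set ℕ) ⊆ w → G (cut v (top t)) t) :
    ∃ s₁ s₂ t : Finset ℕ, t ∈ F ∧ t ⊆ s₁ ∧ t ⊆ s₂ ∧ G s₁ t ∧ G s₂ t ∧
      (∀ i ∈ s₁, i ∈ s₂ → i ∈ t) ∧
      (∀ a ∈ s₁, a ∉ t → ∀ b ∈ s₂, b ∉ t → b < a → ∃ c ∈ t, b < c ∧ c < a) := by
  have h0 := start hp F hne hanti hbar G x hx H
  obtain ⟨S₁, S₂, t, a1, a2, a3, a4, a5, a6, a7, a8, a9, a10, a11⟩ := merge hp h0 ∅ 0 h0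
  have ne : ∀ i : ℕ, i ∉ (∅ : Finset ℕ) := fun i => Finset.notMem_empty i
  refine ⟨S₁, S₂, t, a4, fun i hi => (a9 i hi (ne i)).1.1, fun i hi => (a9 i hi (ne i)).2.1, a5, a6,
    fun i h1 h2 => a10 i h1 (ne i) h2 (ne i), fun a ha hat b hb hbt hba => ?_⟩
  obtain ⟨c, c1, _, c3, c4⟩ := a11 a ha (ne a) hat b hb (ne b) hbt hba
  exact ⟨c, c1, c3, c4⟩

end Pool.Agent.BLA
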