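import Pool.Agent.BLA.Front
import Pool.Agent.BLA.TB

/-!
# Stabilisation of the exit index

`J Ok f z e` is antitone in the failure set: `z ⊆ z'` implies `J Ok f z e ≤ J Ok f z' e`.

Suppose the conclusion fails: for all `z₀ ∈ p` there is `z ∈ p`, `z ⊆ z₀` with
`{e | J z e < J z₀ e} ∈ U`. Let `b k` be an upper bound of all elements of the sets
`f m e`, `m ≤ e ≤ k`, and take `x ∈ p` with `b k < n` for `k < n` in `x` (`Selective.sparse`). Take
`F, C` from `exists_rep` and let `G s t := {e | J s e < J' e} ∈ C t`, precisely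
`G s t := {e | J Ok f t e < J Ok f s e} ∈ C t` (with `s`, `t` as sets).
For `v ∈ p`, `v ⊆ x` take `z ⊆ v` with `A = {e | J z e < J v e} ∈ U`, `y ∈ p` for `A` from
`Rep.mem`, `w = z ∩ y`. For `t ∈ F`, `t ⊆ w` and `e ≤ top t`, `e ∈ A`: `J t e ≤ J z e < J v e` and
`J v e = J (cut v (top t)) e`, because for `m ≤ e ≤ top t` the elements of `f m e` are at most
`b (top t)`, and the elements of `v ⊆ x` which are at most `b (top t)` are at most `top t`. So
`G (cut v (top t)) t` by `Rep.up`.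
`two_branch` gives `s₁, s₂, t`, and `Rep.inter` gives `e ≤ top t` with `J t e < J s₁ e` and
`J t e < J s₂ e`. Let `m = J t e ≤ e`. As `m < J s_i e`, `Ok m e` and `f m e ⊆ s₁ ∩ s₂ = t`, but
`m = J t e ≤ e` is a failure index for `t`, a contradiction.
-/

namespace Pool.Agent.BLA

open Filter Set

section J

variable {Ok : ℕ → ℕ → Prop} {f : ℕ → ℕ → Finset ℕ}

theorem ex_J_le_succ (z : Set ℕ) (e : ℕ) : J Ok f z e ≤ e + 1 :=
  Nat.sInf_le (Or.inr rfl)

theorem ex_J_le_of_fail {z : Set ℕ} {e m : ℕ} (h : ¬ (Ok m e ∧ (f m e : Set ℕ) ⊆ z)) :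
    J Ok f z e ≤ m :=
  Nat.sInf_le (Or.inl h)

theorem ex_J_mem (z : Set ℕ) (e : ℕ) :
    ¬ (Ok (J Ok f z e) e ∧ (f (J Ok f z e) e : Set ℕ) ⊆ z) ∨ J Ok f z e = e + 1 := by
  have h : ({m | ¬ (Ok m e ∧ (f m e : Set ℕ) ⊆ z)} ∪ {e + 1} : Set ℕ).Nonempty :=
    ⟨e + 1, Or.inr rfl⟩
  exact Nat.sInf_mem h

theorem ex_ok_of_lt_J {z : Set ℕ} {e m : ℕ} (h : m < J Ok f z e) :
    Ok m e ∧ (f m e : Set ℕ) ⊆ z := by
  by_contra hc
  exact absurd (ex_J_le_of_fail hc) (not_le.2 h)

theorem ex_J_mono {z z' : Set ℕ} (hz : z ⊆ z') (e : ℕ) : J Ok f z e ≤ J Ok f z' e := by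
  rcases ex_J_mem (Ok := Ok) (f := f) z' e with h | h
  · exact ex_J_le_of_fail fun hc => h ⟨hc.1, hc.2.trans hz⟩
  · rw [h]; exact ex_J_le_succ z e

end J

theorem ex_le_top {t : Finset ℕ} {i : ℕ} (hi : i ∈ t) : i ≤ top t :=
  Finset.le_sup (f := id) hi

theorem ex_top_mem {t : Finset ℕ} (ht : t.Nonempty) : top t ∈ t := by
  obtain ⟨i, hi, h⟩ := Finset.exists_mem_eq_sup t ht id
  unfold top
  rw [h]; exact hi

theorem Named.exit {p U : Ultrafilter ℕ} (hp : Selective p) (hU : Named p U)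
    (Ok : ℕ → ℕ → Prop) (f : ℕ → ℕ → Finset ℕ) :
    ∃ z₀ ∈ p, ∀ z ∈ p, z ⊆ z₀ → {e | J Ok f z e = J Ok f z₀ e} ∈ U := by
  by_contra hcon
  push Not at hcon
  have hlt : ∀ z₀ ∈ p, ∃ z ∈ p, z ⊆ z₀ ∧ {e | J Ok f z e < J Ok f z₀ e} ∈ U := by
    intro z₀ hz₀
    obtain ⟨z, hz, hzz, hn⟩ := hcon z₀ hz₀
    refine ⟨z, hz, hzz, ?_⟩
    have h1 := Ultrafilter.compl_mem_iff_notMem.2 hn
    filter_upwards [h1] with e he
    exact lt_of_le_of_ne (ex_J_mono hzz e) he
  -- the bound
  obtain ⟨b, hb⟩ : ∃ b : ℕ → ℕ, ∀ k e m, e ≤ k → m ≤ e → ∀ i ∈ f m e, i ≤ b k := by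
    refine ⟨fun k => (Finset.range (k + 1)).sup (fun e => (Finset.range (k + 1)).sup
      (fun m => top (f m e))), ?_⟩
    intro k e m he hm i hi
    have h1 : top (f m e) ≤ (Finset.range (k + 1)).sup (fun m => top (f m e)) :=
      Finset.le_sup (f := fun m => top (f m e)) (Finset.mem_range.2 (by omega))
    have h2 : (Finset.range (k + 1)).sup (fun m => top (f m e)) ≤
        (Finset.range (k + 1)).sup (fun e => (Finset.range (k + 1)).sup
          (fun m => top (f m e))) :=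
      Finset.le_sup (f := fun e => (Finset.range (k + 1)).sup (fun m => top (f m e)))
        (Finset.mem_range.2 (by omega))
    exact (ex_le_top hi).trans (h1.trans h2)
  obtain ⟨x, hx, hxb⟩ := hp.sparse b
  obtain ⟨F, C, hR⟩ := exists_rep hp hU
  obtain ⟨s₁, s₂, t, htF, ht1, ht2, hG1, hG2, hint, -⟩ :=
    two_branch hp F hR.nonempty hR.anti hR.bar
      (fun s t => {e | J Ok f (t : Set ℕ) e < J Ok f (s : Set ℕ) e} ∈ C t) x hx (by
        intro v hv hvx
        obtain ⟨z, hz, hzv, hA⟩ := hlt v hv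
        obtain ⟨y, hy, hyC⟩ := hR.mem _ hA
        refine ⟨z ∩ y, inter_mem hz hy, inter_subset_left.trans hzv, ?_⟩
        intro t htF htw
        have hAt := hyC t htF (htw.trans inter_subset_right)
        refine hR.up t htF _ hAt _ ?_
        intro e he heA
        have htz : (t : Set ℕ) ⊆ z := htw.trans inter_subset_left
        have h1 : J Ok f (t : Set ℕ) e ≤ J Ok f z e := ex_J_mono htz e
        have h2 : J Ok f z e < J Ok f v e := heA
        have h3 : J Ok f v e ≤ J Ok f (cut v (top t) : Set ℕ) e := by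
          rcases ex_J_mem (Ok := Ok) (f := f) (cut v (top t) : Set ℕ) e with h | h
          · by_cases hle : J Ok f (cut v (top t) : Set ℕ) e ≤ e
            · refine ex_J_le_of_fail fun hc => h ⟨hc.1, ?_⟩
              intro i hi
              have hiv : i ∈ v := hc.2 hi
              have hib : i ≤ b (top t) := hb (top t) e _ he hle i hi
              have hit : i ≤ top t := by
                by_contra hgt
                push Not at hgt
                have htt : top t ∈ x := hvx (hzv (htz (ex_top_mem (hR.nonempty t htF))))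
                have := hxb (top t) htt i (hvx hiv) hgt
                omega
              exact mem_cut.2 ⟨hit, hiv⟩
            · exact (ex_J_le_succ v e).trans (by omega)
          · rw [h]; exact ex_J_le_succ v e
        exact lt_of_le_of_lt h1 (lt_of_lt_of_le h2 h3))
  obtain ⟨e, he, h1, h2⟩ := hR.inter t htF _ hG1 _ hG2
  have h1' : J Ok f (t : Set ℕ) e < J Ok f (s₁ : Set ℕ) e := h1
  have h2' : J Ok f (t : Set ℕ) e < J Ok f (s₂ : Set ℕ) e := h2
  have hm : J Ok f (t : Set ℕ) e < e + 1 := lt_of_lt_of_le h1' (ex_J_le_succ _ e)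
  rcases ex_J_mem (Ok := Ok) (f := f) (t : Set ℕ) e with h | h
  · obtain ⟨o1, o2⟩ := ex_ok_of_lt_J h1'
    obtain ⟨-, o3⟩ := ex_ok_of_lt_J h2'
    exact h ⟨o1, fun i hi => hint i (o2 hi) (o3 hi)⟩
  · omega

end Pool.Agent.BLA
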