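import Pool.Agent.BLA.Compact

/-!
# Every named ultrafilter has a representation by a front

Let `N` be the name. `C s = {A | ∃ B, ∃ y ∈ p, (∀ i ∈ s, ∀ j ∈ y, i < j) ∧ N (s ∪ y) B ∧
∀ i ≤ top s, i ∈ B → i ∈ A}`. Say that `s` is good if all `A, B ∈ C s` meet in some `i ≤ top s`.
`F` = the set of nonempty good `s` such that every nonempty good `t` with `Init t s` is equal
to `s`. `nonempty, anti, up, inter` are clear.
`mem`: for `A ∈ U` take `y ∈ p` with `N y A`; for `s ⊆ y` use `y' = {j ∈ y | ∀ i ∈ s, i < j} ∈ p`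
and `IsName.mono`.
`bar`: `compact_name` gives `n ∈ x` such that `cut x n` is good (here `top (cut x n) = n`, and
members of `C (cut x n)` contain, below `n + 1`, the `B`s of `compact_name`); take the least
`n' ∈ x` with `cut x n'` good; every nonempty initial segment of `cut x n'` is a `cut x n''` with
`n'' ∈ x`, `n'' ≤ n'`.
-/

namespace Pool.Agent.BLA

open Filter Set

private theorem fr_le_top {s : Finset ℕ} {i : ℕ} (hi : i ∈ s) : i ≤ top s :=
  Finset.le_sup (f := id) hi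

private theorem fr_top_mem {s : Finset ℕ} (hs : s.Nonempty) : top s ∈ s := by
  obtain ⟨b, hb, hb2⟩ := Finset.exists_mem_eq_sup s hs id
  unfold top
  rw [hb2]
  exact hb

private theorem fr_top_cut {x : Set ℕ} {n : ℕ} (hn : n ∈ x) : top (cut x n) = n := by
  apply le_antisymm
  · unfold top
    apply Finset.sup_le
    intro i hi
    exact (mem_cut.mp hi).1
  · exact fr_le_top (mem_cut.mpr ⟨le_rfl, hn⟩)

theorem exists_rep {p U : Ultrafilter ℕ} (hp : Selective p) (hU : Named p U) :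
    ∃ F C, Rep p U F C := by
  classical
  obtain ⟨N, hN, hNU⟩ := hU
  let C : Finset ℕ → Set (Set ℕ) := fun s => {A | ∃ B : Set ℕ, ∃ y ∈ p,
    (∀ i ∈ s, ∀ j ∈ y, i < j) ∧ N (↑s ∪ y) B ∧ ∀ i ≤ top s, i ∈ B → i ∈ A}
  let good : Finset ℕ → Prop := fun s => ∀ A ∈ C s, ∀ B ∈ C s, ∃ i ≤ top s, i ∈ A ∧ i ∈ B
  let F : Set (Finset ℕ) := {s | s.Nonempty ∧ good s ∧
    ∀ t : Finset ℕ, t.Nonempty → good t → Init t s → t = s}
  refine ⟨F, C, ?_, ?_, ?_, ?_, ?_, ?_⟩
  · intro s hs
    exact hs.1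
  · intro s hs t ht hts
    exact hs.2.2 t ht.1 ht.2.1 hts
  · rintro s _ A ⟨B', y, hy, hsy, hNB, hBA⟩ B hAB
    exact ⟨B', y, hy, hsy, hNB, fun i hi hiB => hAB i hi (hBA i hi hiB)⟩
  · intro s hs
    exact hs.2.1
  · intro A hA
    obtain ⟨y, hy, hNy⟩ := (hNU A).mp hA
    refine ⟨y, hy, ?_⟩
    intro s _ hsy
    have hlarge : {j : ℕ | top s < j} ∈ p := by
      have hfin : ({j : ℕ | top s < j}ᶜ) ∉ p := by
        intro hc
        have hcf : ({j : ℕ | top s < j}ᶜ) = ⋃ i ∈ Set.Iic (top s), ({i} : Set ℕ) := by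
          ext j
          simp
        rw [hcf, Ultrafilter.finite_biUnion_mem_iff (Set.finite_Iic _)] at hc
        obtain ⟨i, _, hi⟩ := hc
        exact hp.1 i hi
      exact Ultrafilter.compl_notMem_iff.mp hfin
    refine ⟨A, y ∩ {j : ℕ | top s < j}, Filter.inter_mem hy hlarge, ?_, ?_, fun i _ h => h⟩
    · intro i hi j hj
      exact lt_of_le_of_lt (fr_le_top hi) hj.2
    · exact hN.mono y _ A hNy (union_subset hsy inter_subset_left)
  · intro x hx
    obtain ⟨n, hn, hcomp⟩ := compact_name hp hN hNU hx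
    have hgood : good (cut x n) := by
      rintro A ⟨B, y, hy, hsy, hNB, hBA⟩ A' ⟨B', y', hy', hsy', hNB', hBA'⟩
      obtain ⟨i, hin, hiB, hiB'⟩ := hcomp B B' ⟨y, hy, hsy, hNB⟩ ⟨y', hy', hsy', hNB'⟩
      rw [fr_top_cut hn] at hBA hBA'
      rw [fr_top_cut hn]
      exact ⟨i, hin, hBA i hin hiB, hBA' i hin hiB'⟩
    have hex : ∃ m, m ∈ x ∧ good (cut x m) := ⟨n, hn, hgood⟩
    obtain ⟨hm, hmg⟩ := Nat.find_spec hex
    have hmin : ∀ k, k ∈ x → good (cut x k) → Nat.find hex ≤ k :=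
      fun k hk hkg => Nat.find_min' hex ⟨hk, hkg⟩
    generalize Nat.find hex = m at hm hmg hmin
    refine ⟨cut x m, ⟨⟨m, mem_cut.mpr ⟨le_rfl, hm⟩⟩, hmg, ?_⟩, ?_, ?_⟩
    · intro t htne htg hts
      have ht1 : top t ∈ t := fr_top_mem htne
      have ht2 := mem_cut.mp (hts.1 ht1)
      have htc : t = cut x (top t) := by
        ext i
        constructor
        · intro hi
          exact mem_cut.mpr ⟨fr_le_top hi, (mem_cut.mp (hts.1 hi)).2⟩
        · intro hi
          obtain ⟨h1, h2⟩ := mem_cut.mp hi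
          by_contra hit
          have := hts.2 i (mem_cut.mpr ⟨h1.trans ht2.1, h2⟩) hit (top t) ht1
          omega
      have hmt : m ≤ top t := hmin (top t) ht2.2 (by rw [← htc]; exact htg)
      have heq : top t = m := le_antisymm ht2.1 hmt
      rw [htc, heq]
    · intro i hi
      exact (mem_cut.mp hi).2
    · intro i hi hle
      rw [fr_top_cut hm] at hle
      exact mem_cut.mpr ⟨hle, hi⟩

end Pool.Agent.BLA
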