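import Pool.Agent.BLA.Diag
import Pool.Agent.BLA.Compact
import Pool.Agent.BLA.NameImage

/-!
# Members of the family of `p` are named

Induction on `GP p U`. `base`: `N y A := y ⊆ A`. `image`: `Named.map`. `sum u v w` with names `N₁` of
`u` and `N₂ n` of `v n`: with `tail y n = {i ∈ y | ∃ k ∈ y, n ≤ k ∧ k < i}` put
`N y A := ∃ B, N₁ y B ∧ ∀ n ∈ B, N₂ n (tail y n) {k | Nat.pair n k ∈ A}`.
`mono`: `tail` is monotone. `closed`: let `y k, A k, B k` be the witnesses and `B` the limit of the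
`B k` along `p` (`agree_lim`); `N₁ y B` by closedness; for `n ∈ B` and given `K`, for `p`-many `k`:
`n ∈ B k`, `k > K`, `k > n`, and `k > Nat.pair n i` for all `i < K`, so `tail (y k) n` agrees with
`tail y n` below `K`, and the sections agree below `K`. If `A ∈ w`: `B = {n | section ∈ v n} ∈ u`;
take `y₀ ∈ p` with `N₁ y₀ B` and for `n ∈ B` `y n ∈ p` with `N₂ n (y n) (section)`; `diag` gives
`y ⊆ y₀` in `p` with `{i ∈ y | k < i} ⊆ ⋂_{n ≤ k, n ∈ B} y n` for `k ∈ y`, so `tail y n ⊆ y n`.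
Conversely `tail y n ∈ p` for `y ∈ p`.
-/

namespace Pool.Agent.BLA

open Filter Set

/-- the tail of `y` beyond some element `≥ n` of `y` -/
private def tl (y : Set ℕ) (n : ℕ) : Set ℕ := {i | i ∈ y ∧ ∃ k ∈ y, n ≤ k ∧ k < i}

private theorem tl_mono {y y' : Set ℕ} (h : y' ⊆ y) (n : ℕ) : tl y' n ⊆ tl y n := by
  rintro i ⟨hi, k, hk, h1, h2⟩
  exact ⟨h hi, k, h hk, h1, h2⟩

private theorem exists_ge {y : Set ℕ} (hy : y.Infinite) (n : ℕ) : ∃ k ∈ y, n ≤ k := by
  obtain ⟨k, hk, hn⟩ := hy.exists_gt n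
  exact ⟨k, hk, hn.le⟩

private theorem tl_infinite {y : Set ℕ} (hy : y.Infinite) (n : ℕ) : (tl y n).Infinite := by
  obtain ⟨k, hk, hn⟩ := exists_ge hy n
  have h1 : (y \ {i | i ≤ k}).Infinite := hy.sdiff (Set.finite_le_nat k)
  refine h1.mono ?_
  rintro i ⟨hi, hik⟩
  simp only [Set.mem_ofPred_eq, not_le] at hik
  exact ⟨hi, k, hk, hn, hik⟩

private theorem tl_mem {p : Ultrafilter ℕ} (hp : Selective p) {y : Set ℕ} (hy : y ∈ p) (n : ℕ) :
    tl y n ∈ p := by
  obtain ⟨k, hk, hn⟩ := exists_ge (hp.infinite hy) n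
  refine mem_of_superset (inter_mem hy (hp.gt_mem k)) ?_
  rintro i ⟨hi, hik⟩
  exact ⟨hi, k, hk, hn, hik⟩

private theorem tl_agree {m K n : ℕ} {y y' : Set ℕ} (h : Agree m y' y) (hK : K ≤ m) :
    Agree K (tl y' n) (tl y n) := by
  intro i hi
  constructor
  · rintro ⟨h1, k, hk, h2, h3⟩
    exact ⟨(h i (by omega)).1 h1, k, (h k (by omega)).1 hk, h2, h3⟩
  · rintro ⟨h1, k, hk, h2, h3⟩
    exact ⟨(h i (by omega)).2 h1, k, (h k (by omega)).2 hk, h2, h3⟩

private theorem named_base {p : Ultrafilter ℕ} : Named p p := by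
  refine ⟨fun y A => y ⊆ A, ⟨fun y y' A h h' => h'.trans h, fun y A B h h' => h.trans h', ?_⟩, ?_⟩
  · intro y A _ h i hi
    obtain ⟨y', A', h1, h2, h3⟩ := h (i + 1)
    exact (h2 i (by omega)).1 (h3 ((h1 i (by omega)).2 hi))
  · intro A
    constructor
    · intro hA
      exact ⟨A, hA, subset_rfl⟩
    · rintro ⟨y, hy, h⟩
      exact mem_of_superset hy h

private theorem named_sum {p u : Ultrafilter ℕ} {v : ℕ → Ultrafilter ℕ} {w : Ultrafilter ℕ}
    (hp : Selective p) (hu : Named p u) (hv : ∀ n, Named p (v n)) (hw : IsSum u v w) :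
    Named p w := by
  obtain ⟨N₁, hN₁, h₁⟩ := hu
  choose N₂ hN₂ h₂ using hv
  refine ⟨fun y A => ∃ B, N₁ y B ∧ ∀ n ∈ B, N₂ n (tl y n) {k | Nat.pair n k ∈ A},
    ⟨?_, ?_, ?_⟩, ?_⟩
  · rintro y y' A ⟨B, hB, h⟩ hy
    exact ⟨B, hN₁.mono _ _ _ hB hy, fun n hn => (hN₂ n).mono _ _ _ (h n hn) (tl_mono hy n)⟩
  · rintro y A A' ⟨B, hB, h⟩ hA
    exact ⟨B, hB, fun n hn => (hN₂ n).up _ _ _ (h n hn) fun k hk => hA hk⟩
  · intro y A hy h
    choose ys As hys hAs Bs hBs hsec using h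
    refine ⟨{e | {m | e ∈ Bs m} ∈ p}, ?_, ?_⟩
    · refine hN₁.closed _ _ hy fun K => ?_
      obtain ⟨m, hm1, hm2⟩ := p.nonempty_of_mem (inter_mem (agree_lim p Bs K) (hp.gt_mem K))
      exact ⟨ys m, Bs m, fun i hi => hys m i (lt_trans hi hm2), hm1, hBs m⟩
    · intro n hn
      refine (hN₂ n).closed _ _ (tl_infinite hy n) fun K => ?_
      obtain ⟨m, hm1, hm2⟩ := p.nonempty_of_mem (inter_mem (show {m | n ∈ Bs m} ∈ p from hn)
        (hp.gt_mem (K + ∑ i ∈ Finset.range K, Nat.pair n i)))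
      have hm3 : K + ∑ i ∈ Finset.range K, Nat.pair n i < m := hm2
      refine ⟨tl (ys m) n, {k | Nat.pair n k ∈ As m}, tl_agree (hys m) (by omega), ?_,
        hsec m n hm1⟩
      intro i hi
      have h3 : Nat.pair n i ≤ ∑ i ∈ Finset.range K, Nat.pair n i :=
        Finset.single_le_sum (f := fun i => Nat.pair n i) (fun _ _ => Nat.zero_le _)
          (Finset.mem_range.2 hi)
      exact hAs m _ (by omega)
  · intro A
    constructor
    · intro hA
      have hB : {n | {k | Nat.pair n k ∈ A} ∈ v n} ∈ u := (hw A).1 hA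
      obtain ⟨y₀, hy₀, hN⟩ := (h₁ _).1 hB
      have h3 : ∀ n, ∃ Y ∈ p, {k | Nat.pair n k ∈ A} ∈ v n → N₂ n Y {k | Nat.pair n k ∈ A} := by
        intro n
        by_cases hn : {k | Nat.pair n k ∈ A} ∈ v n
        · obtain ⟨Y, hY, h⟩ := (h₂ n _).1 hn
          exact ⟨Y, hY, fun _ => h⟩
        · exact ⟨univ, univ_mem, fun h => absurd h hn⟩
      choose Y hY hYN using h3
      obtain ⟨x, hx, hd⟩ := hp.diag (fun k => ⋂ n ∈ Finset.range (k + 1), Y n)
        (fun k => (biInter_finset_mem _).2 fun n _ => hY n)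
      refine ⟨x ∩ y₀, inter_mem hx hy₀, _, hN₁.mono _ _ _ hN inter_subset_right, ?_⟩
      intro n hn
      refine (hN₂ n).mono _ _ _ (hYN n hn) ?_
      rintro i ⟨hi, k, hk, h1, h2⟩
      have h4 := hd k hk.1 i hi.1 h2
      simp only [mem_iInter] at h4
      exact h4 n (Finset.mem_range.2 (by omega))
    · rintro ⟨y, hy, B, hB, h⟩
      refine (hw A).2 (mem_of_superset ((h₁ B).2 ⟨y, hy, hB⟩) ?_)
      intro n hn
      exact (h₂ n _).2 ⟨_, tl_mem hp hy n, h n hn⟩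

theorem GP.named {p U : Ultrafilter ℕ} (hp : Selective p) (h : GP p U) : Named p U := by
  induction h with
  | base => exact named_base
  | image u f _ ih => exact ih.map f
  | sum u v w _ _ hw ih1 ih2 => exact named_sum hp ih1 ih2 hw

end Pool.Agent.BLA
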