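import Pool.Agent.BLA.Front
import Pool.Agent.BLA.TB

/-!
# Every nonprincipal named ultrafilter has `p` as an image

Take `F, C` from `exists_rep`. For `v ∈ p` let `pred v e` be the largest `a ∈ v` with `a ≤ e`
(`0` if there is none) and `succ v e` the least `b ∈ v` with `e < b`. If `U.map (pred v) = p` or
`U.map (succ v) = p` for some `v ∈ p`, we are done. Otherwise for every `v ∈ p` there are
`w₁, w₂ ∈ p` with `{e | pred v e ∉ w₁} ∈ U` and `{e | succ v e ∉ w₂} ∈ U`; let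
`A = {e | pred v e ∉ w₁ ∧ succ v e ∉ w₂ ∧ min v ≤ e} ∈ U` (`U` is nonprincipal) and `y ∈ p` with
`A ∈ C t` for all `t ∈ F`, `t ⊆ y`; `w = w₁ ∩ w₂ ∩ y ∩ v`. Let
`S s t = {e | ∃ a ∈ s, ∃ b ∈ s, a ∉ t ∧ b ∉ t ∧ a ≤ e ∧ e < b ∧ ∀ c ∈ s, c ≤ a ∨ b ≤ c}` and
`G s t := S s t ∈ C t`. For `t ∈ F`, `t ⊆ w`: `A ∩ [0, top t] ⊆ S (cut v (top t)) t` (note
`top t ∈ v`, and `top t ∉ A` as `pred v (top t) = top t ∈ w`), so `G (cut v (top t)) t` by `Rep.up`.
`two_branch` (with `x = univ`) gives `s₁, s₂, t`; by `Rep.inter` there is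
`e ∈ S s₁ t ∩ S s₂ t`, with `a₁ ≤ e < b₁`, `a₂ ≤ e < b₂` consecutive in `s₁`, `s₂`. As `a₂ < b₁`,
`b₁ ∈ s₁ ∖ t`, `a₂ ∈ s₂ ∖ t` there is `c ∈ t` with `a₂ < c < b₁`; `c ∈ s₁` gives `c ≤ a₁ ≤ e` and
`c ∈ s₂` gives `b₂ ≤ c`, so `e < b₂ ≤ c ≤ e`, a contradiction.
-/

namespace Pool.Agent.BLA

open Filter Set

/-- the largest element of `v` which is at most `e` -/
noncomputable def prd (v : Set ℕ) (e : ℕ) : ℕ := sSup {a | a ∈ v ∧ a ≤ e}

/-- the least element of `v` above `e` -/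
noncomputable def scc (v : Set ℕ) (e : ℕ) : ℕ := sInf {b | b ∈ v ∧ e < b}

theorem prd_mem {v : Set ℕ} {e a : ℕ} (ha : a ∈ v) (hae : a ≤ e) : prd v e ∈ v ∧ prd v e ≤ e := by
  have h1 : sSup {a | a ∈ v ∧ a ≤ e} ∈ {a | a ∈ v ∧ a ≤ e} :=
    Nat.sSup_mem ⟨a, ha, hae⟩ ⟨e, fun x hx => hx.2⟩
  exact h1

theorem le_prd {v : Set ℕ} {e a : ℕ} (ha : a ∈ v) (hae : a ≤ e) : a ≤ prd v e :=
  le_csSup ⟨e, fun _ hx => hx.2⟩ ⟨ha, hae⟩

theorem scc_mem {v : Set ℕ} {e b : ℕ} (hb : b ∈ v) (heb : e < b) : scc v e ∈ v ∧ e < scc v e := by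
  have h1 : sInf {b | b ∈ v ∧ e < b} ∈ {b | b ∈ v ∧ e < b} := Nat.sInf_mem ⟨b, hb, heb⟩
  exact h1

theorem scc_le {v : Set ℕ} {e b : ℕ} (hb : b ∈ v) (heb : e < b) : scc v e ≤ b :=
  Nat.sInf_le ⟨hb, heb⟩

/-- the union of the gaps of `s` with both ends outside of `t` -/
def gaps (s t : Finset ℕ) : Set ℕ :=
  {e | ∃ a ∈ s, ∃ b ∈ s, a ∉ t ∧ b ∉ t ∧ a ≤ e ∧ e < b ∧ ∀ c ∈ s, c ≤ a ∨ b ≤ c}

theorem exists_not_map_mem {p U : Ultrafilter ℕ} {h : ℕ → ℕ} (hne : U.map h ≠ p) :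
    ∃ w ∈ p, {e | h e ∉ w} ∈ U := by
  by_contra hcon
  push Not at hcon
  apply hne
  rw [← Ultrafilter.coe_le_coe]
  intro w hw
  have h1 := hcon w hw
  rw [← Ultrafilter.compl_mem_iff_notMem] at h1
  have h2 : {e | h e ∉ w}ᶜ = h ⁻¹' w := by
    ext e
    simp
  rw [h2] at h1
  exact h1

theorem ge_mem_of_nonprincipal {U : Ultrafilter ℕ} (hn : ∀ n : ℕ, ({n} : Set ℕ) ∉ U) (a : ℕ) :
    {e | a ≤ e} ∈ U := by
  induction a with
  | zero => exact mem_of_superset univ_mem fun e _ => Nat.zero_le e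
  | succ a ih =>
    have h1 := Ultrafilter.compl_mem_iff_notMem.2 (hn a)
    filter_upwards [ih, h1] with e h2 h3
    have h4 : e ≠ a := h3
    have h5 : a ≤ e := h2
    show a + 1 ≤ e
    omega

theorem Named.exists_map_eq {p U : Ultrafilter ℕ} (hp : Selective p) (hU : Named p U)
    (hn : ∀ n : ℕ, ({n} : Set ℕ) ∉ U) : ∃ h : ℕ → ℕ, U.map h = p := by
  by_contra hcon
  push Not at hcon
  obtain ⟨F, C, hR⟩ := exists_rep hp hU
  obtain ⟨s₁, s₂, t, htF, hts₁, hts₂, hG₁, hG₂, -, hsep⟩ :=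
    two_branch hp F hR.nonempty hR.anti hR.bar (fun s t => gaps s t ∈ C t) univ univ_mem (by
      intro v hv _
      obtain ⟨w₁, hw₁, hA₁⟩ := exists_not_map_mem (hcon (prd v))
      obtain ⟨w₂, hw₂, hA₂⟩ := exists_not_map_mem (hcon (scc v))
      obtain ⟨a₀, ha₀⟩ : v.Nonempty := by
        rw [Set.nonempty_iff_ne_empty]
        rintro rfl
        exact p.empty_notMem hv
      have hA₃ := ge_mem_of_nonprincipal hn a₀
      have hA : {e | prd v e ∉ w₁} ∩ {e | scc v e ∉ w₂} ∩ {e | a₀ ≤ e} ∈ U :=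
        inter_mem (inter_mem hA₁ hA₂) hA₃
      obtain ⟨y, hy, hyC⟩ := hR.mem _ hA
      refine ⟨w₁ ∩ w₂ ∩ y ∩ v, inter_mem (inter_mem (inter_mem hw₁ hw₂) hy) hv,
        fun i hi => hi.2, ?_⟩
      intro t ht htw
      have hty : (t : Set ℕ) ⊆ y := fun i hi => (htw hi).1.2
      refine hR.up t ht _ (hyC t ht hty) _ ?_
      rintro e he ⟨⟨he1, he2⟩, he3⟩
      have htop : top t ∈ t := by
        have h1 := Finset.exists_mem_eq_sup t (hR.nonempty t ht) id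
        obtain ⟨i, hi, hi2⟩ := h1
        unfold top
        rw [hi2]
        exact hi
      have htopw := htw (Finset.mem_coe.2 htop)
      have ha := prd_mem ha₀ he3
      have hlt : e < top t := by
        rcases he.lt_or_eq with h | h
        · exact h
        · exfalso
          have hev : e ∈ v := by
            rw [h]
            exact htopw.2
          have h1 : prd v e = e := le_antisymm ha.2 (le_prd hev le_rfl)
          apply he1
          rw [h1, h]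
          exact htopw.1.1.1
      have hb := scc_mem htopw.2 hlt
      have hb' := scc_le htopw.2 hlt
      refine ⟨prd v e, mem_cut.2 ⟨ha.2.trans he, ha.1⟩, scc v e, mem_cut.2 ⟨hb', hb.1⟩, ?_, ?_,
        ha.2, hb.2, ?_⟩
      · intro h
        exact he1 (htw (Finset.mem_coe.2 h)).1.1.1
      · intro h
        exact he2 (htw (Finset.mem_coe.2 h)).1.1.2
      · intro c hc
        obtain ⟨-, hc2⟩ := mem_cut.1 hc
        rcases le_or_gt c e with h | h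
        · exact Or.inl (le_prd hc2 h)
        · exact Or.inr (scc_le hc2 h))
  obtain ⟨e, -, ⟨a₁, ha₁, b₁, hb₁, ha₁t, hb₁t, h1, h2, h3⟩, ⟨a₂, ha₂, b₂, hb₂, ha₂t, hb₂t, h4, h5,
    h6⟩⟩ := hR.inter t htF _ hG₁ _ hG₂
  obtain ⟨c, hc, hc1, hc2⟩ := hsep b₁ hb₁ hb₁t a₂ ha₂ ha₂t (by omega)
  have h7 := h3 c (hts₁ hc)
  have h8 := h6 c (hts₂ hc)
  omega

end Pool.Agent.BLA
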